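import Pool.Agent.TH966.CC.Frm
import Pool.Agent.H934R2.Expl.Mom

/-!
The probability that a set of points of the lower side of a rectangle is joined to its upper side
is comparable with the capacity of the set.
-/

set_option autoImplicit false
set_option maxHeartbeats 1000000

namespace Pool.Agent.TH966.CC

open H974 H973 H934E Finset
open Pool.Agent.TH966.GB Pool.Agent.H160R2.CV
open Pool.Agent.H160R2.CV.Quad

/-- The kernel. -/
noncomputable def kern (b x y : ℤ) : ℝ := q |x - y| / q b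

theorem kern_comm (b x y : ℤ) : kern b x y = kern b y x := by
  unfold kern; rw [abs_sub_comm]

theorem q_anti {a b : ℤ} (ha : 0 ≤ a) (h : a ≤ b) : q b ≤ q a := by
  unfold q
  apply one_div_le_one_div_of_le (th_pos (by omega))
  exact th_mono (by omega) (by omega)

theorem kern_ge_one {b x y : ℤ} (hb : 0 ≤ b) (h : |x - y| ≤ b) : 1 ≤ kern b x y := by
  unfold kern
  rw [le_div_iff₀ (q_pos hb), one_mul]
  exact q_anti (abs_nonneg _) h

/-- The energy of a weight. -/
noncomputable def en (b : ℤ) (S : Finset ℤ) (v : ℤ → ℝ) : ℝ :=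
  ∑ x ∈ S, ∑ y ∈ S, v x * v y * kern b x y

theorem en_ge {b : ℤ} (hb : 0 ≤ b) {S : Finset ℤ} (hS : ∀ x ∈ S, ∀ y ∈ S, |x - y| ≤ b) {v : ℤ → ℝ}
    (hv : ∀ x ∈ S, 0 ≤ v x) : (∑ x ∈ S, v x) ^ 2 ≤ en b S v := by
  unfold en
  rw [sq, Finset.sum_mul_sum]
  apply Finset.sum_le_sum
  intro x hx
  apply Finset.sum_le_sum
  intro y hy
  have := kern_ge_one hb (hS x hx y hy)
  have h2 := mul_nonneg (hv x hx) (hv y hy)
  nlinarith

/-- some point of `S` is joined to the top -/
def Hit (b m : ℤ) (S : Finset ℤ) (F : Finset Edg) : Prop := ∃ x ∈ S, Up b m F x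

theorem Hit_incr (T : Finset Edg) (b m : ℤ) (S : Finset ℤ) : IncrE T (Hit b m S) := by
  rintro F G h h' ⟨x, hx, h1⟩
  exact ⟨x, hx, Up_incr T b m x F G h h' h1⟩

theorem mid_abs {κ b : ℤ} (hκ : 1 ≤ κ) (hb : 0 ≤ b) {S : Finset ℤ} (hS : ∀ x ∈ S, Mid κ b x) :
    ∀ x ∈ S, ∀ y ∈ S, |x - y| ≤ b := by
  intro x hx y hy
  have h1 := (hS x hx).pos hκ hb
  have h2 := (hS y hy).pos hκ hb
  rw [abs_le]
  omega

/-- the weighted number of joined points of `S` -/
noncomputable def Zf (b m : ℤ) (S : Finset ℤ) (v : ℤ → ℝ) (F : Finset Edg) : ℝ :=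
  ∑ x ∈ S, v x / q b * ind (Up b m F x)

theorem Zf_nonneg {b m : ℤ} (hb : 0 ≤ b) {S : Finset ℤ} {v : ℤ → ℝ} (hv : ∀ x ∈ S, 0 ≤ v x)
    (F : Finset Edg) : 0 ≤ Zf b m S v F := by
  unfold Zf
  apply Finset.sum_nonneg
  intro x hx
  exact mul_nonneg (div_nonneg (hv x hx) (q_pos hb).le) (ind_nonneg _)

theorem Zf_mean {c : ℝ} {b m : ℤ} (hb : 0 ≤ b) {S : Finset ℤ} {v : ℤ → ℝ}
    (hv : ∀ x ∈ S, 0 ≤ v x)
    (h : ∀ x ∈ S, c * q b ≤ Pr P (RE 0 b 0 m) (fun F => Up b m F x)) :
    c * ∑ x ∈ S, v x ≤ EE (RE 0 b 0 m) (Zf b m S v) := by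
  unfold Zf EE
  rw [Ex_sum, Finset.mul_sum]
  apply Finset.sum_le_sum
  intro x hx
  rw [Ex_mul_left]
  have hp := q_pos hb
  have h1 := h x hx
  calc c * v x = v x / q b * (c * q b) := by field_simp
    _ ≤ _ := mul_le_mul_of_nonneg_left h1 (div_nonneg (hv x hx) hp.le)

theorem Zf_mul {C : ℝ} {b m : ℤ} (hb : 0 ≤ b) {S : Finset ℤ} {v : ℤ → ℝ}
    (hv : ∀ x ∈ S, 0 ≤ v x)
    (h : ∀ x ∈ S, ∀ y ∈ S, Pr P (RE 0 b 0 m) (fun F => Up b m F x ∧ Up b m F y) ≤
      C * (q b * q |x - y|)) :
    EE (RE 0 b 0 m) (fun F => Zf b m S v F * Zf b m S v F) ≤ C * en b S v := by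
  unfold Zf EE en
  simp only [Finset.sum_mul_sum]
  rw [Ex_sum, Finset.mul_sum]
  apply Finset.sum_le_sum
  intro x hx
  rw [Ex_sum, Finset.mul_sum]
  apply Finset.sum_le_sum
  intro y hy
  have hp := q_pos hb
  have h1 := h x hx y hy
  have e : Ex (fun _ => (1/2 : ℝ)) (RE 0 b 0 m)
      (fun F => v x / q b * ind (Up b m F x) * (v y / q b * ind (Up b m F y))) =
      (v x / q b * (v y / q b)) *
        Pr P (RE 0 b 0 m) (fun F => Up b m F x ∧ Up b m F y) := by
    unfold Pr
    rw [← Ex_mul_left]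
    apply Ex_congr
    intro F _
    rw [ind_and]
    ring
  rw [e]
  have h2 : 0 ≤ v x / q b * (v y / q b) :=
    mul_nonneg (div_nonneg (hv x hx) hp.le) (div_nonneg (hv y hy) hp.le)
  calc _ ≤ v x / q b * (v y / q b) * (C * (q b * q |x - y|)) :=
        mul_le_mul_of_nonneg_left h1 h2
    _ = C * (v x * v y * kern b x y) := by unfold kern; field_simp

/-- **Lower bound**. -/
theorem cap_low (κ : ℤ) (hκ : 1 ≤ κ) : ∃ c : ℝ, 0 < c ∧ ∀ b m : ℤ, 1 ≤ b → b ≤ κ * m →
    m ≤ κ * b → ∀ S : Finset ℤ, (∀ x ∈ S, Mid κ b x) →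
    ∀ v : ℤ → ℝ, (∀ x ∈ S, 0 ≤ v x) → ∑ x ∈ S, v x = 1 →
    c / en b S v ≤ Pr P (RE 0 b 0 m) (Hit b m S) := by
  obtain ⟨c, hc, h1⟩ := one_low κ hκ
  obtain ⟨C, hC, h2⟩ := two_up κ hκ
  refine ⟨c ^ 2 / (4 * C), by positivity, fun b m hb hbm hmb S hS v hv hv1 => ?_⟩
  have hb0 : 0 ≤ b := by omega
  have hen := en_ge hb0 (mid_abs hκ hb0 hS) hv
  rw [hv1] at hen
  have hen' : 0 < en b S v := by linarith
  have m1 := Zf_mean (c := c) (m := m) hb0 hv (fun x hx => h1 b m x hb hbm hmb (hS x hx))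
  rw [hv1, mul_one] at m1
  have m2 := Zf_mul (C := C) (m := m) hb0 hv (fun x hx y hy =>
    h2 b m x y hb0 hbm (hS x hx) (hS y hy))
  have h3 := paley (S := RE 0 b 0 m) (f := Zf b m S v) (fun F _ => Zf_nonneg hb0 hv F)
    hc (V := C * en b S v) (by positivity) m1 m2
  have e : c ^ 2 / (4 * C) / en b S v = c ^ 2 / (4 * (C * en b S v)) := by
    rw [div_div]; ring_nf
  rw [e]
  refine h3.trans (Pr_mono okP fun F _ hF => ?_)
  by_contra hcon
  unfold Hit at hcon
  push Not at hcon
  have : Zf b m S v F = 0 := by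
    unfold Zf
    apply Finset.sum_eq_zero
    intro x hx
    rw [ind_not_of (hcon x hx), mul_zero]
  rw [this] at hF
  linarith

/-- at most one of pairwise incompatible events -/
theorem sum_ind_le {ι : Type*} (s : Finset ι) (A : ι → Prop) (B : Prop)
    (h1 : ∀ i ∈ s, A i → B) (h2 : ∀ i ∈ s, ∀ j ∈ s, i ≠ j → A i → ¬ A j) :
    ∑ i ∈ s, ind (A i) ≤ ind B := by
  by_cases h : ∃ i ∈ s, A i
  · obtain ⟨i, hi, hA⟩ := h
    rw [ind_of (h1 i hi hA), Finset.sum_eq_single_of_mem i hi, ind_of hA]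
    intro j hj hji
    exact ind_not_of (fun hAj => h2 j hj i hi hji hAj hA)
  · push Not at h
    rw [Finset.sum_eq_zero (fun i hi => ind_not_of (h i hi))]
    exact ind_nonneg _

theorem AU_disj {b m : ℤ} {Q : ℤ → Prop} {x y : ℤ} (hx : 0 ≤ x) (hxy : x < y) (hP : Q x)
    {F : Finset Edg} (h1 : AU b m Q x F) : ¬ AU b m Q y F := fun h2 => h2.2 x hP hx hxy h1.1

/-- **Upper bound**. -/
theorem cap_up (κ : ℤ) (hκ : 1 ≤ κ) : ∃ C : ℝ, 0 < C ∧ ∀ b m : ℤ, 1 ≤ b → b ≤ κ * m →
    m ≤ κ * b → ∀ S : Finset ℤ, (∀ x ∈ S, Mid κ b x) →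
    0 < Pr P (RE 0 b 0 m) (Hit b m S) →
    ∃ v : ℤ → ℝ, (∀ x ∈ S, 0 ≤ v x) ∧ ∑ x ∈ S, v x = 1 ∧
      Pr P (RE 0 b 0 m) (Hit b m S) ≤ C / en b S v := by
  obtain ⟨C, hC, h1⟩ := one_up κ hκ
  obtain ⟨c, hc, h2⟩ := left_low κ hκ
  set c' := min c 1 with hc'
  have hc'0 : 0 < c' := lt_min hc one_pos
  refine ⟨2 * (C / c'), by positivity, fun b m hb hbm hmb S hS hh => ?_⟩
  have hb0 : 0 ≤ b := by omega
  have hm0 : 0 ≤ m := by
    by_contra hcon
    push Not at hcon
    nlinarith
  have hqb := q_pos hb0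
  set h := Pr P (RE 0 b 0 m) (Hit b m S) with hdef
  set a : ℤ → ℝ := fun x => Pr P (RE 0 b 0 m) (AU b m (· ∈ S) x) with ha
  have ha0 : ∀ x, 0 ≤ a x := fun x => Pr_nonneg okP _ _
  have hS0 : ∀ x ∈ S, 0 ≤ x := fun x hx => ((hS x hx).pos hκ hb0).1
  -- the sum of the `a x`
  have hsum : ∑ x ∈ S, a x = h := by
    rw [hdef, ha]
    simp only [Pr]
    rw [← Ex_sum]
    apply Ex_congr
    intro F _
    apply le_antisymm
    · apply sum_ind_le
      · intro x hx hA
        exact ⟨x, hx, hA.1⟩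
      · intro x hx y hy hne hA hB
        rcases lt_or_gt_of_ne hne with hlt | hlt
        · exact AU_disj (hS0 x hx) hlt hx hA hB
        · exact AU_disj (hS0 y hy) hlt hy hB hA
    · by_cases hH : Hit b m S F
      · rw [ind_of hH]
        -- the first visited point
        classical
        obtain ⟨x0, hx0, hW0⟩ := hH
        have hne : (S.filter (fun x => Up b m F x)).Nonempty :=
          ⟨x0, Finset.mem_filter.mpr ⟨hx0, hW0⟩⟩
        set n := (S.filter (fun x => Up b m F x)).min' hne with hn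
        have hmem := Finset.min'_mem _ hne
        rw [← hn, Finset.mem_filter] at hmem
        have hA : AU b m (· ∈ S) n F := by
          refine ⟨hmem.2, fun s hs _ hsm hWs => ?_⟩
          have h9 : n ≤ s := by
            rw [hn]
            exact Finset.min'_le _ s (Finset.mem_filter.mpr ⟨hs, hWs⟩)
          omega
        have := Finset.single_le_sum (f := fun x => ind (AU b m (· ∈ S) x F))
          (fun i _ => ind_nonneg _) hmem.1
        rw [show (1 : ℝ) = ind (AU b m (· ∈ S) n F) from (ind_of hA).symm]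
        exact this
      · rw [ind_not_of hH]
        exact Finset.sum_nonneg (fun i _ => ind_nonneg _)
  -- the potential is bounded
  have hpot : ∀ y ∈ S, ∑ x ∈ S.filter (· ≤ y), a x * kern b x y ≤ C / c' := by
    intro y hy
    have k1 : ∑ x ∈ S.filter (· ≤ y),
        Pr P (RE 0 b 0 m) (fun F => AU b m (· ∈ S) x F ∧ Up b m F y) ≤ C * q b := by
      refine le_trans ?_ (h1 b m y hb0 hbm (hS y hy))
      simp only [Pr]
      rw [← Ex_sum]
      apply Ex_mono okP
      intro F _
      apply sum_ind_le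
      · intro x _ hA
        exact hA.2
      · intro x hx z hz hne hA hB
        have hx' := (Finset.mem_filter.mp hx).1
        have hz' := (Finset.mem_filter.mp hz).1
        rcases lt_or_gt_of_ne hne with hlt | hlt
        · exact AU_disj (hS0 x hx') hlt hx' hA.1 hB.1
        · exact AU_disj (hS0 z hz') hlt hz' hB.1 hA.1
    have k2 : ∀ x ∈ S.filter (· ≤ y), c' * (a x * q |x - y|) ≤
        Pr P (RE 0 b 0 m) (fun F => AU b m (· ∈ S) x F ∧ Up b m F y) := by
      intro x hx
      obtain ⟨hxS, hxy⟩ := Finset.mem_filter.mp hx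
      have hx1 := hS0 x hxS
      have e0 : |x - y| = y - x := by rw [abs_sub_comm, abs_of_nonneg (by omega)]
      rw [e0]
      rcases lt_or_eq_of_le hxy with hlt | heq
      · refine le_trans ?_ (dom hm0 hx1 hlt _)
        have h3 := h2 b m x y hb hbm hmb (hS y hy) hx1 hlt
        have hpp := q_pos (n := y - x) (by omega)
        calc c' * (a x * q (y - x)) = a x * (c' * q (y - x)) := by ring
          _ ≤ a x * (c * q (y - x)) := by
            apply mul_le_mul_of_nonneg_left _ (ha0 x)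
            exact mul_le_mul_of_nonneg_right (min_le_left _ _) hpp.le
          _ ≤ _ := mul_le_mul_of_nonneg_left h3 (ha0 x)
      · subst heq
        rw [sub_self, q_zero, mul_one]
        calc c' * a x ≤ 1 * a x := mul_le_mul_of_nonneg_right (min_le_right _ _) (ha0 x)
          _ = a x := one_mul _
          _ ≤ _ := Pr_mono okP (fun F _ hF => ⟨hF, hF.1⟩)
    rw [le_div_iff₀ hc'0]
    calc (∑ x ∈ S.filter (· ≤ y), a x * kern b x y) * c'
        = (∑ x ∈ S.filter (· ≤ y), c' * (a x * q |x - y|)) / q b := by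
          rw [Finset.sum_mul, Finset.sum_div]
          apply Finset.sum_congr rfl
          intro x _
          unfold kern
          ring
      _ ≤ (C * q b) / q b := by
          apply div_le_div_of_nonneg_right _ hqb.le
          exact (Finset.sum_le_sum k2).trans k1
      _ = C := by field_simp
  -- the energy of `a`
  have hkn : ∀ x ∈ S, ∀ y ∈ S, 0 ≤ kern b x y := fun x hx y hy =>
    le_trans zero_le_one (kern_ge_one hb0 (mid_abs hκ hb0 hS x hx y hy))
  have hen : en b S a ≤ 2 * (C / c') * h := by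
    have e1 : en b S a ≤ ∑ y ∈ S, 2 * (a y * ∑ x ∈ S.filter (· ≤ y), a x * kern b x y) := by
      have e2 : en b S a ≤ ∑ y ∈ S, ∑ x ∈ S, ((if x ≤ y then a x * a y * kern b x y else 0) +
          (if y ≤ x then a x * a y * kern b x y else 0)) := by
        unfold en
        rw [Finset.sum_comm]
        apply Finset.sum_le_sum
        intro y hy
        apply Finset.sum_le_sum
        intro x hx
        have h0 : 0 ≤ a x * a y * kern b x y :=
          mul_nonneg (mul_nonneg (ha0 x) (ha0 y)) (hkn x hx y hy)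
        split_ifs <;> first | linarith | (exfalso; omega)
      refine e2.trans (le_of_eq ?_)
      simp only [Finset.sum_add_distrib]
      have e3 : ∑ y ∈ S, ∑ x ∈ S, (if y ≤ x then a x * a y * kern b x y else 0) =
          ∑ y ∈ S, ∑ x ∈ S, (if x ≤ y then a x * a y * kern b x y else 0) := by
        rw [Finset.sum_comm]
        apply Finset.sum_congr rfl
        intro y _
        apply Finset.sum_congr rfl
        intro x _
        rw [kern_comm, mul_comm (a x)]
      rw [e3, ← Finset.sum_add_distrib]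
      apply Finset.sum_congr rfl
      intro y _
      rw [Finset.sum_filter, ← two_mul]
      congr 1
      rw [Finset.mul_sum]
      apply Finset.sum_congr rfl
      intro x _
      split_ifs
      · ring
      · ring
    refine e1.trans ?_
    calc ∑ y ∈ S, 2 * (a y * ∑ x ∈ S.filter (· ≤ y), a x * kern b x y)
        ≤ ∑ y ∈ S, 2 * (a y * (C / c')) := by
          apply Finset.sum_le_sum
          intro y hy
          apply mul_le_mul_of_nonneg_left _ (by norm_num)
          exact mul_le_mul_of_nonneg_left (hpot y hy) (ha0 y)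
      _ = 2 * (C / c') * ∑ y ∈ S, a y := by
          rw [Finset.mul_sum]
          apply Finset.sum_congr rfl
          intro y _
          ring
      _ = 2 * (C / c') * h := by rw [hsum]
  refine ⟨fun x => a x / h, fun x _ => div_nonneg (ha0 x) hh.le, ?_, ?_⟩
  · rw [← Finset.sum_div, hsum, div_self hh.ne']
  · have e : en b S (fun x => a x / h) = en b S a / h ^ 2 := by
      unfold en
      rw [Finset.sum_div]
      apply Finset.sum_congr rfl
      intro x _
      rw [Finset.sum_div]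
      apply Finset.sum_congr rfl
      intro y _
      field_simp
    have hpos : 0 < en b S a := by
      have := en_ge hb0 (mid_abs hκ hb0 hS) (v := a) (fun x _ => ha0 x)
      rw [hsum] at this
      have : 0 < h ^ 2 := by positivity
      linarith
    rw [e, le_div_iff₀ (by positivity)]
    calc h * (en b S a / h ^ 2) ≤ h * (2 * (C / c') * h / h ^ 2) := by
          apply mul_le_mul_of_nonneg_left _ hh.le
          exact div_le_div_of_nonneg_right hen (by positivity)
      _ = 2 * (C / c') := by field_simp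

end Pool.Agent.TH966.CC
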