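import Pool.Agent.TH966.GB.Half
import Pool.Agent.H389R2.LV.Rsw
import Pool.Agent.TH868.CT.Swap

/-!
Connections between boundary points of the lower side of a rectangle and its upper side: bounds for
one and for two points.
-/

set_option autoImplicit false
set_option maxHeartbeats 1000000

namespace Pool.Agent.TH966.CC

open H974 H973 H934E Finset
open Pool.Agent.TH966.GB Pool.Agent.H160R2.CV
open Pool.Agent.H160R2.CV.Quad

/-- The vertex `(x, 0)` is joined to the upper side of `[0, b] × [0, m]`. -/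
def Up (b m : ℤ) (F : Finset Edg) (x : ℤ) : Prop :=
  ∃ t : ℤ, (0 ≤ t ∧ t ≤ b) ∧ Reach (↑F ∩ ↑(RE 0 b 0 m)) (x, 0) (t, m)

/-- The vertex `(y, 0)` is joined to the upper side or to a vertex `(i, 0)` with `0 ≤ i ≤ x`. -/
def Lf (b m x : ℤ) (F : Finset Edg) (y : ℤ) : Prop :=
  Up b m F y ∨ ∃ i : ℤ, (0 ≤ i ∧ i ≤ x) ∧ Reach (↑F ∩ ↑(RE 0 b 0 m)) (y, 0) (i, 0)

theorem Up_incr (S : Finset Edg) (b m x : ℤ) : IncrE S (fun F => Up b m F x) := by
  rintro F G h _ ⟨t, h1, h2⟩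
  exact ⟨t, h1, h2.mono (Set.inter_subset_inter_left _ (by exact_mod_cast h))⟩

/-- `(n + 1) ^ (-1/3)` -/
noncomputable def q (n : ℤ) : ℝ := 1 / th (n + 1)

theorem q_pos {n : ℤ} (hn : 0 ≤ n) : 0 < q n := by
  have := th_pos (n := n + 1) (by omega)
  unfold q
  positivity

theorem q_le_one {n : ℤ} (hn : 0 ≤ n) : q n ≤ 1 := by
  have h := one_le_th (n := n + 1) (by omega)
  unfold q
  rw [div_le_one (by linarith)]
  exact h

theorem q_zero : q 0 = 1 := by
  unfold q th; norm_num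

/-- comparison -/
theorem q_cmp {a b k : ℤ} (hk : 1 ≤ k) (ha : 0 ≤ a) (hb : 0 ≤ b) (h : a + 1 ≤ k * (b + 1)) :
    q b ≤ k * q a := by
  have h1 := th_pos (n := a + 1) (by omega)
  have h2 := th_pos (n := b + 1) (by omega)
  have h3 : th (a + 1) ≤ k * th (b + 1) :=
    (th_mono (by omega) h).trans (th_mul hk (by omega))
  unfold q
  rw [mul_one_div, div_le_div_iff₀ h2 h1, one_mul]
  exact h3

/-- comparison with powers of radii -/
theorem inv_th_le {r b k : ℤ} (hk : 1 ≤ k) (hr : 1 ≤ r) (hb : 0 ≤ b) (h : b + 1 ≤ k * r) :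
    1 / th r ≤ k * q b := by
  have h1 := th_pos (n := b + 1) (by omega)
  have h2 := th_pos hr
  have h3 : th (b + 1) ≤ k * th r := (th_mono (by omega) h).trans (th_mul hk (by omega))
  unfold q
  rw [mul_one_div, div_le_div_iff₀ h2 h1, one_mul]
  exact h3

theorem half_lower (S : Finset Edg) {A : Finset Edg → Prop} (h : A S) :
    (1/2 : ℝ) ^ S.card ≤ Pr P S A := by
  have h1 : Pr P S A = (1/2 : ℝ) ^ S.card * TH868.CT.Nb S A := TH868.CT.Pr_half S A
  have h2 : (1 : ℝ) ≤ TH868.CT.Nb S A := by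
    have : 0 < TH868.CT.Nb S A := by
      classical
      unfold TH868.CT.Nb
      apply Finset.card_pos.mpr
      exact ⟨S, Finset.mem_filter.mpr ⟨Finset.mem_powerset.mpr (Finset.Subset.refl _), h⟩⟩
    exact_mod_cast this
  rw [h1]
  have : (0 : ℝ) < (1/2 : ℝ) ^ S.card := by positivity
  nlinarith

theorem card_RE {b m : ℤ} (hb : 0 ≤ b) (hm : 0 ≤ m) :
    ((RE 0 b 0 m).card : ℤ) ≤ (b + 1) * ((m + 1) * 2) := by
  have h1 : (RE 0 b 0 m).card ≤
      (Finset.Icc (0 : ℤ) b ×ˢ (Finset.Icc (0 : ℤ) m ×ˢ (Finset.univ : Finset Bool))).card :=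
    Finset.card_filter_le _ _
  rw [Finset.card_product, Finset.card_product, Int.card_Icc, Int.card_Icc] at h1
  have h2 : ((b + 1 - 0).toNat : ℤ) = b + 1 := by omega
  have h3 : ((m + 1 - 0).toNat : ℤ) = m + 1 := by omega
  calc ((RE 0 b 0 m).card : ℤ) ≤ (((b + 1 - 0).toNat * ((m + 1 - 0).toNat *
        (Finset.univ : Finset Bool).card) : ℕ) : ℤ) := by exact_mod_cast h1
    _ = _ := by
      push_cast
      have e1 : (((b + 1 - 0).toNat : ℕ) : ℤ) = b + 1 := by omega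
      have e2 : (((m + 1 - 0).toNat : ℕ) : ℤ) = m + 1 := by omega
      simp only [Finset.card_univ, Fintype.card_bool]
      push_cast
      rw [e1, e2]

theorem half_lower_RE {b m : ℤ} {D : ℕ} (hb : 0 ≤ b) (hm : 0 ≤ m) (hD : (b + 1) * ((m + 1) * 2) ≤ D)
    {A : Finset Edg → Prop} (h : A (RE 0 b 0 m)) : (1/2 : ℝ) ^ D ≤ Pr P (RE 0 b 0 m) A := by
  refine le_trans ?_ (half_lower (RE 0 b 0 m) h)
  apply pow_le_pow_of_le_one (by norm_num) (by norm_num)
  have := card_RE hb hm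
  omega

/-- A path from the bottom to the top leaves the half-boxes. -/
theorem Up_BAr {b m x R : ℤ} {F : Finset Edg} (hR : 1 ≤ R) (hm : R ≤ m) (h : Up b m F x) :
    Ar x R F := by
  obtain ⟨t, _, h2⟩ := h
  obtain ⟨w, h3, _, h4⟩ := exitG (k := x) hR
    (G := ↑F ∩ ↑(RE 0 b 0 m)) (fun e he _ => RE_nonneg (Finset.mem_coe.mp he.2))
    (u := (x, 0)) (by unfold inR; simp only; omega) h2 (by simp only; omega)
  exact ⟨w, h3, h4.mono (by rintro e ⟨⟨he1, _⟩, he2⟩; exact ⟨he1, he2⟩)⟩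

theorem BAr_of_Ar {x R : ℤ} {F : Finset Edg} (h : Ar x R F) : BAr x 1 R F := by
  obtain ⟨y, h1, h2⟩ := h
  exact ⟨(x, 0), y, by unfold inR; simp only; omega, h1, h2⟩

/-- the position of the point: at distance at least `b / κ` from the corners -/
def Mid (κ b x : ℤ) : Prop := b ≤ κ * x ∧ b ≤ κ * (b - x)

theorem Mid.pos {κ b x : ℤ} (hκ : 1 ≤ κ) (hb : 0 ≤ b) (h : Mid κ b x) : 0 ≤ x ∧ x ≤ b := by
  obtain ⟨h1, h2⟩ := h
  constructor
  · by_contra hc
    push Not at hc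
    nlinarith
  · by_contra hc
    push Not at hc
    nlinarith

theorem Mid.rad {κ b x R : ℤ} (hκ : 1 ≤ κ) (hR : R = b / κ) (h : Mid κ b x) :
    0 ≤ x - R ∧ x + R ≤ b := by
  obtain ⟨h1, h2⟩ := h
  have h3 : κ * R ≤ b := by rw [hR]; exact Int.mul_ediv_self_le (by omega)
  constructor
  · have : κ * R ≤ κ * x := h3.trans h1
    have := le_of_mul_le_mul_left this (by omega)
    omega
  · have : κ * R ≤ κ * (b - x) := h3.trans h2
    have := le_of_mul_le_mul_left this (by omega)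
    omega

theorem rad_ge {κ b R : ℤ} (hκ : 1 ≤ κ) (hR : R = b / κ) (hR1 : 1 ≤ R) :
    b + 1 ≤ (2 * κ) * R := by
  have h1 : b < κ * (R + 1) := by
    have := Int.lt_ediv_add_one_mul_self b (show (0 : ℤ) < κ by omega)
    rw [hR]; linarith
  nlinarith

/-- **One point, upper bound.** -/
theorem one_up (κ : ℤ) (hκ : 1 ≤ κ) : ∃ C : ℝ, 0 < C ∧ ∀ b m x : ℤ, 0 ≤ b → b ≤ κ * m →
    Mid κ b x → Pr P (RE 0 b 0 m) (fun F => Up b m F x) ≤ C * q b := by
  obtain ⟨c, C, hc, hC, h⟩ := pa_bounds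
  have hκ0 : (0 : ℝ) < κ := by exact_mod_cast (by omega : 0 < κ)
  refine ⟨2 * κ * C + κ, by positivity, fun b m x hb hbm hx => ?_⟩
  obtain ⟨R, hR⟩ : ∃ R, R = b / κ := ⟨_, rfl⟩
  have hR0 : 0 ≤ R := by rw [hR]; exact Int.ediv_nonneg hb (by omega)
  have hq := q_pos hb
  by_cases hR1 : 1 ≤ R
  · obtain ⟨g1, g2⟩ := hx.rad hκ hR
    have hRm : R ≤ m := by
      have h3 : κ * R ≤ b := by rw [hR]; exact Int.mul_ediv_self_le (by omega)
      exact le_of_mul_le_mul_left (h3.trans hbm) (by omega)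
    have hsub : RE (x - R) (x + R) 0 R ⊆ RE 0 b 0 m := RE_subset g1 g2 le_rfl hRm
    have e1 : Pr P (RE 0 b 0 m) (Ar x R) = pa R := pr_Ar hR1 hsub
    have h1 := (h R hR1).2
    change th R * pa R ≤ C at h1
    have hth := th_pos hR1
    have h2 : 1 / th R ≤ ((2 * κ : ℤ) : ℝ) * q b :=
      inv_th_le (by omega) hR1 hb (rad_ge hκ hR hR1)
    push_cast at h2
    calc Pr P (RE 0 b 0 m) (fun F => Up b m F x) ≤ Pr P (RE 0 b 0 m) (Ar x R) :=
          Pr_mono okP (fun F _ hF => Up_BAr hR1 hRm hF)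
      _ = pa R := e1
      _ ≤ C * (1 / th R) := by rw [mul_one_div, le_div_iff₀ hth]; linarith
      _ ≤ C * (2 * κ * q b) := mul_le_mul_of_nonneg_left h2 hC.le
      _ ≤ (2 * κ * C + κ) * q b := by nlinarith [mul_pos hκ0 hq]
  · have hb1 : b + 1 ≤ κ * (0 + 1) := by
      have := Int.lt_ediv_add_one_mul_self b (show (0 : ℤ) < κ by omega)
      rw [← hR] at this
      have h0 : R = 0 := by omega
      rw [h0] at this
      omega
    have h2 := q_cmp hκ hb le_rfl hb1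
    rw [q_zero] at h2
    calc Pr P (RE 0 b 0 m) (fun F => Up b m F x) ≤ 1 := Pr_le_one okP _ _
      _ ≤ κ * q b := h2
      _ ≤ (2 * κ * C + κ) * q b := by
        apply mul_le_mul_of_nonneg_right _ hq.le
        nlinarith [mul_pos hκ0 hC]

/-- **Two points, upper bound.** -/
theorem two_up (κ : ℤ) (hκ : 1 ≤ κ) : ∃ C : ℝ, 0 < C ∧ ∀ b m x y : ℤ, 0 ≤ b → b ≤ κ * m →
    Mid κ b x → Mid κ b y →
    Pr P (RE 0 b 0 m) (fun F => Up b m F x ∧ Up b m F y) ≤ C * (q b * q |x - y|) := by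
  obtain ⟨K, hK, h⟩ := half_two
  have hκ0 : (0 : ℝ) < κ := by exact_mod_cast (by omega : 0 < κ)
  have hκ1 : (1 : ℝ) ≤ κ := by exact_mod_cast hκ
  refine ⟨(2 * κ + 2) * (2 * κ) * K + κ * κ, by positivity, fun b m x y hb hbm hx hy => ?_⟩
  obtain ⟨R, hR⟩ : ∃ R, R = b / κ := ⟨_, rfl⟩
  have hR0 : 0 ≤ R := by rw [hR]; exact Int.ediv_nonneg hb (by omega)
  have hq := q_pos hb
  obtain ⟨p1, p2⟩ := hx.pos hκ hb
  obtain ⟨p3, p4⟩ := hy.pos hκ hb
  obtain ⟨d, hd⟩ : ∃ d, d = |x - y| := ⟨_, rfl⟩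
  have hd0 : 0 ≤ d := by rw [hd]; exact abs_nonneg _
  have hdb : d ≤ b := by rw [hd, abs_le]; omega
  rw [← hd]
  have hqd := q_pos hd0
  by_cases hR1 : 1 ≤ R
  · obtain ⟨g1, g2⟩ := hx.rad hκ hR
    have hRm : R ≤ m := by
      have h3 : κ * R ≤ b := by rw [hR]; exact Int.mul_ediv_self_le (by omega)
      exact le_of_mul_le_mul_left (h3.trans hbm) (by omega)
    have hsub : RE (x - R) (x + R) 0 R ⊆ RE 0 b 0 m := RE_subset g1 g2 le_rfl hRm
    have hth := th_pos hR1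
    have hr := rad_ge hκ hR hR1
    have h2 : 1 / th R ≤ ((2 * κ : ℤ) : ℝ) * q b := inv_th_le (by omega) hR1 hb hr
    push_cast at h2
    have h1 := h 1 R x y le_rfl hR1 (RE 0 b 0 m) hsub
    have hdR : |(x : ℝ) - y| = (d : ℝ) := by rw [hd]; push_cast; ring
    rw [hdR] at h1
    have hRp : (0 : ℝ) < R := by exact_mod_cast (by omega : 0 < R)
    obtain ⟨D, hD⟩ : ∃ D : ℤ, D = max d 1 := ⟨_, rfl⟩
    have hD1 : 1 ≤ D := by rw [hD]; exact le_max_right _ _
    have hDR : max (d : ℝ) ((1 : ℤ) : ℝ) = (D : ℝ) := by rw [hD]; push_cast; rfl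
    rw [hDR] at h1
    have hDp : (0 : ℝ) < D := by exact_mod_cast (by omega : 0 < D)
    have e1 : (((1 : ℤ) : ℝ) / R) ^ ((2 : ℝ) / 3) = (1 / th R) * (1 / th R) := by
      have e0 : (1 : ℝ) / th R = ((1 : ℝ) / R) ^ ((1 : ℝ) / 3) := by
        unfold th
        rw [Real.div_rpow (by norm_num) hRp.le, Real.one_rpow]
      rw [e0, ← Real.rpow_add (by positivity)]
      push_cast
      norm_num
    have e2 : ((R : ℝ) / D) ^ ((1 : ℝ) / 3) = th R * (1 / th D) := by
      unfold th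
      rw [Real.div_rpow hRp.le hDp.le]
      ring
    rw [e1, e2] at h1
    have h3 : 1 / th D ≤ 2 * q d := by
      have := inv_th_le (k := 2) (r := D) (b := d) (by norm_num) hD1 hd0 (by omega)
      exact_mod_cast this
    have h4 : (1 : ℝ) ≤ th R * (2 * κ * q d) := by
      have h5 := inv_th_le (k := 2 * κ) (r := R) (b := d) (by omega) hR1 hd0 (by omega)
      push_cast at h5
      rw [div_le_iff₀ hth] at h5
      linarith
    have h6 : 1 + th R * (1 / th D) ≤ th R * ((2 * κ + 2) * q d) := by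
      have h7 : th R * (1 / th D) ≤ th R * (2 * q d) := mul_le_mul_of_nonneg_left h3 hth.le
      nlinarith
    have hinv : 0 < 1 / th R := by positivity
    calc Pr P (RE 0 b 0 m) (fun F => Up b m F x ∧ Up b m F y)
        ≤ Pr P (RE 0 b 0 m) (fun F => BAr x 1 R F ∧ BAr y 1 R F) :=
          Pr_mono okP (fun F _ hF =>
            ⟨BAr_of_Ar (Up_BAr hR1 hRm hF.1), BAr_of_Ar (Up_BAr hR1 hRm hF.2)⟩)
      _ ≤ K * ((1 / th R) * (1 / th R)) * (1 + th R * (1 / th D)) := h1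
      _ ≤ K * ((1 / th R) * (1 / th R)) * (th R * ((2 * κ + 2) * q d)) :=
          mul_le_mul_of_nonneg_left h6 (by positivity)
      _ = K * (2 * κ + 2) * q d * (1 / th R) := by field_simp
      _ ≤ K * (2 * κ + 2) * q d * (2 * κ * q b) := mul_le_mul_of_nonneg_left h2 (by positivity)
      _ = (2 * κ + 2) * (2 * κ) * K * (q b * q d) := by ring
      _ ≤ _ := by
          apply mul_le_mul_of_nonneg_right _ (by positivity)
          nlinarith
  · have hb1 : b + 1 ≤ κ * (0 + 1) := by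
      have := Int.lt_ediv_add_one_mul_self b (show (0 : ℤ) < κ by omega)
      rw [← hR] at this
      have h0 : R = 0 := by omega
      rw [h0] at this
      omega
    have h2 := q_cmp hκ hb le_rfl hb1
    have h3 := q_cmp (k := κ) hκ hd0 le_rfl (show d + 1 ≤ κ * (0 + 1) by omega)
    rw [q_zero] at h2 h3
    calc Pr P (RE 0 b 0 m) (fun F => Up b m F x ∧ Up b m F y) ≤ 1 := Pr_le_one okP _ _
      _ ≤ (κ * q b) * (κ * q d) := by nlinarith
      _ = κ * κ * (q b * q d) := by ring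
      _ ≤ _ := by
        apply mul_le_mul_of_nonneg_right _ (by positivity)
        have : 0 ≤ (2 * (κ : ℝ) + 2) * (2 * κ) * K := by positivity
        linarith

theorem vreach {b m x : ℤ} (h1 : 0 ≤ x) (h2 : x ≤ b) (hm : 0 ≤ m) :
    Reach (↑(RE 0 b 0 m) : Set Edg) (x, 0) (x, m) := by
  obtain ⟨n, hn⟩ := Int.eq_ofNat_of_zero_le hm
  have key : ∀ k : ℕ, (k : ℤ) ≤ m → Reach (↑(RE 0 b 0 m) : Set Edg) (x, 0) (x, (k : ℤ)) := by
    intro k
    induction k with
    | zero => intro _; exact Reach.refl _ _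
    | succ k ih =>
      intro hk
      push_cast at hk
      refine (ih (by omega)).trans (Adj.reach ⟨(x, (k : ℤ), false), ?_, Or.inl ⟨?_, ?_⟩⟩)
      · rw [Finset.mem_coe, mem_RE_false]; omega
      · simp
      · simp
  have := key n (by omega)
  rw [← hn] at this
  exact this

/-- **One point, lower bound.** -/
theorem one_low (κ : ℤ) (hκ : 1 ≤ κ) : ∃ c : ℝ, 0 < c ∧ ∀ b m x : ℤ, 1 ≤ b → b ≤ κ * m →
    m ≤ κ * b → Mid κ b x → c * q b ≤ Pr P (RE 0 b 0 m) (fun F => Up b m F x) := by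
  obtain ⟨c, C, hc, hC, h⟩ := pa_bounds
  obtain ⟨k, hk⟩ := Int.eq_ofNat_of_zero_le (show 0 ≤ κ by omega)
  obtain ⟨c2, hc2, hrsw⟩ := Pool.Agent.H389R2.LV.rsw_long (12 * k * k)
  have hkp := kp_pos
  obtain ⟨D, hD⟩ : ∃ D : ℕ, (D : ℤ) = (3 * κ + 1) * ((κ * (3 * κ) + 1) * 2) :=
    ⟨(3 * k + 1) * ((k * (3 * k) + 1) * 2), by rw [hk]; push_cast; ring⟩
  refine ⟨min (c * kp * c2) ((1/2 : ℝ) ^ D), by positivity, fun b m x hb hbm hmb hx => ?_⟩
  obtain ⟨R, hR⟩ : ∃ R, R = b / κ := ⟨_, rfl⟩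
  have hq := q_pos (n := b) (by omega)
  obtain ⟨p1, p2⟩ := hx.pos hκ (by omega)
  have hm : 1 ≤ m := by
    by_contra hcon
    push Not at hcon
    nlinarith
  by_cases hR3 : 3 ≤ R
  · obtain ⟨g1, g2⟩ := hx.rad hκ hR
    have hRm : R ≤ m := by
      have h3 : κ * R ≤ b := by rw [hR]; exact Int.mul_ediv_self_le (by omega)
      exact le_of_mul_le_mul_left (h3.trans hbm) (by omega)
    obtain ⟨n, hn⟩ : ∃ n, n = R / 3 := ⟨_, rfl⟩
    have hn1 : 1 ≤ n := by omega
    have hnR : 3 * n ≤ R := by omega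
    have hRn : R ≤ 6 * n := by omega
    have hsub : RE (x - 3 * n) (x + 3 * n) 0 (3 * n) ⊆ RE 0 b 0 m :=
      RE_subset (by omega) (by omega) le_rfl (by omega)
    have hsub2 : TBE (x - n) (x + n) 0 m ⊆ RE 0 b 0 m :=
      TBE_subset_RE.trans (RE_subset (by omega) (by omega) le_rfl le_rfl)
    have e1 : Pr P (RE 0 b 0 m) (Ar x (3 * n)) = pa (3 * n) := pr_Ar (by omega) hsub
    have e2 : kp ≤ Pr P (RE 0 b 0 m) (HC x n (3 * n)) := pr_HC (by omega) hsub
    have e3 : c2 ≤ Pr P (RE 0 b 0 m) (TBc (x - n) (x + n) 0 m) := by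
      have h1 : Pr P (RE 0 b 0 m) (TBc (x - n) (x + n) 0 m) =
          hh (1 / 2) (m - 0) (x + n - (x - n)) := pr_TBc (1 / 2) hsub2
      rw [h1]
      apply hrsw
      · omega
      · omega
      · have h2 : b < κ * (R + 1) := by
          have := Int.lt_ediv_add_one_mul_self b (show (0 : ℤ) < κ by omega)
          rw [hR]; linarith
        have h3 : x + n - (x - n) = 2 * n := by ring
        rw [h3, sub_zero]
        have h4 : b ≤ κ * (12 * n) := by
          have : R + 1 ≤ 12 * n := by omega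
          nlinarith
        have h5 : m ≤ κ * (κ * (12 * n)) := hmb.trans (mul_le_mul_of_nonneg_left h4 (by omega))
        have h6 : (((12 * k * k : ℕ)) : ℤ) = 12 * κ * κ := by rw [hk]; push_cast; ring
        rw [h6]
        nlinarith [mul_nonneg (mul_nonneg (show (0:ℤ) ≤ κ by omega) (show (0:ℤ) ≤ κ by omega))
          (show (0 : ℤ) ≤ n by omega)]
    have i1 : IncrE (RE 0 b 0 m) (Ar x (3 * n)) := Ar_incr _ _ _
    have i2 : IncrE (RE 0 b 0 m) (HC x n (3 * n)) := HC_incr _ _ _ _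
    have i3 : IncrE (RE 0 b 0 m) (TBc (x - n) (x + n) 0 m) := TBc_incr _ _ _ _ _
    have j1 : IncrE (RE 0 b 0 m) (fun F => Ar x (3 * n) F ∧ HC x n (3 * n) F) :=
      fun F G h1 h2 hF => ⟨i1 F G h1 h2 hF.1, i2 F G h1 h2 hF.2⟩
    have q1 := Pr_harris okP i1 i2
    have q2 := Pr_harris okP j1 i3
    have hdet : Pr P (RE 0 b 0 m) (fun F => (Ar x (3 * n) F ∧ HC x n (3 * n) F) ∧
        TBc (x - n) (x + n) 0 m F) ≤ Pr P (RE 0 b 0 m) (fun F => Up b m F x) := by
      refine Pr_mono okP ?_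
      rintro F hF ⟨⟨hA, hH⟩, hT⟩
      obtain ⟨y, y1, y2⟩ := hA
      obtain ⟨t, t', t1, t2, t3⟩ := hT
      obtain ⟨l, _, _, hz⟩ := hc_meet (by omega) (by omega) hH
      have r1 := hz (x, 0) y (by unfold inR; simp only; omega) y1 y2
      have t3' : Reach (↑F ∩ ↑(RE 0 b 0 m)) (t, 0) (t', m) :=
        t3.mono (Set.inter_subset_inter_right _ (by exact_mod_cast hsub2))
      obtain ⟨w, w1, _, w2⟩ := exitG (k := x) (R := 3 * n) (by omega)
        (G := ↑F ∩ ↑(RE 0 b 0 m)) (fun e he _ => RE_nonneg (Finset.mem_coe.mp he.2))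
        (u := (t, 0)) (v := (t', m)) (by unfold inR; simp only; omega) t3' (by simp only; omega)
      have r2 := hz (t, 0) w (by unfold inR; simp only; omega) w1
        (w2.mono (by rintro e ⟨⟨he1, _⟩, he2⟩; exact ⟨he1, he2⟩))
      have hs : (↑F : Set Edg) ∩ ↑(RE (x - 3 * n) (x + 3 * n) 0 (3 * n)) ⊆
          ↑F ∩ ↑(RE 0 b 0 m) := Set.inter_subset_inter_right _ (by exact_mod_cast hsub)
      exact ⟨t', by omega, ((r1.mono hs).trans (r2.symm.mono hs)).trans t3'⟩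
    have hpa : c * q b ≤ pa (3 * n) := by
      have h1 := (h (3 * n) (by omega)).1
      change c ≤ th (3 * n) * pa (3 * n) at h1
      have h2 := th_pos (n := 3 * n) (by omega)
      have h3 := th_pos (n := b + 1) (by omega)
      have h4 : th (3 * n) ≤ th (b + 1) := th_mono (by omega) (by omega)
      have h5 : 0 ≤ pa (3 * n) := pa_nonneg _
      unfold q
      rw [mul_one_div, div_le_iff₀ h3]
      nlinarith
    have hp0 : 0 ≤ pa (3 * n) := pa_nonneg _
    have hP1 : pa (3 * n) * kp ≤ Pr P (RE 0 b 0 m) (fun F => Ar x (3 * n) F ∧ HC x n (3 * n) F) := by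
      refine le_trans ?_ q1
      rw [e1]
      exact mul_le_mul_of_nonneg_left e2 hp0
    have hP2 : pa (3 * n) * kp * c2 ≤ Pr P (RE 0 b 0 m) (fun F => Up b m F x) := by
      refine le_trans ?_ hdet
      refine le_trans ?_ q2
      exact mul_le_mul hP1 e3 hc2.le (Pr_nonneg okP _ _)
    calc min (c * kp * c2) ((1/2 : ℝ) ^ D) * q b ≤ (c * kp * c2) * q b :=
          mul_le_mul_of_nonneg_right (min_le_left _ _) hq.le
      _ = (c * q b) * kp * c2 := by ring
      _ ≤ pa (3 * n) * kp * c2 := by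
          apply mul_le_mul_of_nonneg_right _ hc2.le
          exact mul_le_mul_of_nonneg_right hpa hkp.le
      _ ≤ _ := hP2
  · have hb3 : b + 1 ≤ 3 * κ + 1 := by
      have := Int.lt_ediv_add_one_mul_self b (show (0 : ℤ) < κ by omega)
      rw [← hR] at this
      have h0 : R + 1 ≤ 3 := by omega
      nlinarith
    have hmb' : m + 1 ≤ κ * (3 * κ) + 1 := by nlinarith
    have h1 : (1/2 : ℝ) ^ D ≤ Pr P (RE 0 b 0 m) (fun F => Up b m F x) := by
      apply half_lower_RE (by omega) (by omega)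
      · rw [hD]
        exact mul_le_mul hb3 (by omega) (by omega) (by omega)
      · refine ⟨x, ⟨p1, p2⟩, ?_⟩
        rw [Set.inter_self]
        exact vreach p1 p2 (by omega)
    calc min (c * kp * c2) ((1/2 : ℝ) ^ D) * q b ≤ (1/2 : ℝ) ^ D * 1 :=
          mul_le_mul (min_le_right _ _) (q_le_one (by omega)) hq.le (by positivity)
      _ ≤ _ := by rw [mul_one]; exact h1

end Pool.Agent.TH966.CC
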