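import Pool.Agent.TH868.CT.Dual
import Pool.Agent.TH966.CC.Pts

/-!
First visited point of a set of boundary points of a rectangle and the points visited after it.
-/

set_option autoImplicit false
set_option maxHeartbeats 1000000

namespace Pool.Agent.TH966.CC

open H974 Finset H731C TH868.CT

/-- Faces outside of the box are joined to bottom faces far to the right. -/
theorem outerR {p N M : ℤ} {F : Finset Edg} (hF : F ⊆ RE (-N) N 0 N) (hM : N + 1 ≤ M) (hM0 : 1 ≤ M)
    (hp : p ≤ M) {f : Vtx} (hf0 : 0 ≤ f.2) (hf : f.1 ≤ -M ∨ M ≤ f.1 ∨ M ≤ f.2) :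
    ∃ J : ℤ, M ≤ J ∧ DReach (CG p F) f (J, -1) := by
  obtain ⟨x0, y0⟩ := f
  simp only at hf0 hf
  have hT : ∀ x y : ℤ, 0 ≤ y → (x < -N ∨ N ≤ x ∨ N < y) → (p ≤ x ∨ y ≠ 0) →
      ((x, y, true) : Edg) ∈ CG p F := by
    intro x y hy h1 h2
    refine ⟨?_, hy⟩
    rintro (h3 | h3)
    · have := hF (Finset.mem_coe.mp h3)
      rw [mem_RE_true] at this
      omega
    · have a1 : x < p := h3.1
      have a2 : y = 0 := h3.2.1
      omega
  have hH : ∀ x y : ℤ, N ≤ y → 0 ≤ y → ((x, y, false) : Edg) ∈ CG p F := by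
    intro x y h1 hy
    refine ⟨?_, hy⟩
    rintro (h3 | h3)
    · have := hF (Finset.mem_coe.mp h3)
      rw [mem_RE_false] at this
      omega
    · exact absurd h3.2.2 (by simp)
  refine ⟨max x0 M, le_max_right _ _, ?_⟩
  have s1 : DReach (CG p F) (x0, y0) (x0, max y0 M) := by
    apply vline (le_max_left _ _)
    intro y h1 h2
    refine hT _ _ (by omega) ?_ (Or.inr (by omega))
    omega
  have s2 : DReach (CG p F) (x0, max y0 M) (max x0 M, max y0 M) := by
    apply hline (le_max_left _ _)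
    intro x h1 h2
    exact hH _ _ (by omega) (by omega)
  have s3 : DReach (CG p F) (max x0 M, -1) (max x0 M, max y0 M) := by
    apply vline (by omega)
    intro y h1 h2
    exact hT _ _ (by omega) (by omega) (Or.inl (by omega))
  exact s1.trans (s2.trans s3.symm)

/-- If `s` is not joined to `(-∞, p]` then a closed dual path separates it. -/
theorem du_hardR {p s N : ℤ} {F : Finset Edg} (hF : F ⊆ RE (-N) N 0 N) (hps : p < s)
    (hW : ¬ WX p F (s, 0)) :
    ∃ i j, (p ≤ i ∧ i < s) ∧ s ≤ j ∧ DReach (CG p F) (i, -1) (j, -1) := by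
  by_contra hcon
  have hcon' : ∀ i j, p ≤ i → i < s → s ≤ j → ¬ DReach (CG p F) (i, -1) (j, -1) :=
    fun i j h1 h2 h3 h4 => hcon ⟨i, j, ⟨h1, h2⟩, h3, h4⟩
  obtain ⟨M, hM⟩ : ∃ M : ℤ, M = |N| + |s| + |p| + 2 := ⟨_, rfl⟩
  have hN := le_abs_self N
  have hs := le_abs_self s
  have hs2 := neg_abs_le s
  have hp := le_abs_self p
  have hp2 := neg_abs_le p
  have hN0 := abs_nonneg N
  obtain ⟨C, hC⟩ : ∃ C : Vtx → Prop,
      C = fun f => ∃ i, (p ≤ i ∧ i < s) ∧ DReach (CG p F) (i, -1) f := ⟨_, rfl⟩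
  obtain ⟨z, hz⟩ : ∃ z : Edg → ZMod 2,
      z = fun e => b2 (¬ (WX p F (src e) ↔ WX p F (tgt e))) := ⟨_, rfl⟩
  obtain ⟨w, hw⟩ : ∃ w : ℤ → ℤ → ZMod 2, w = fun x y => b2 (WX p F (x, y)) := ⟨_, rfl⟩
  obtain ⟨c, hc⟩ : ∃ c : ℤ → ℤ → ZMod 2, c = fun x y => b2 (C (x, y)) := ⟨_, rfl⟩
  -- a
  have ha : ∀ e : Edg, 0 ≤ e.2.1 → z e ≠ 0 → e ∈ CG p F := by
    intro e he0 hze
    refine ⟨?_, he0⟩
    intro hmem
    apply hze
    rw [hz]
    apply b2_not_of
    rw [not_not]
    constructor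
    · intro h; exact h.trans (Adj.reach ⟨e, hmem, Or.inl ⟨rfl, rfl⟩⟩)
    · intro h; exact h.trans (Adj.reach ⟨e, hmem, Or.inr ⟨rfl, rfl⟩⟩)
  have hb : ∀ e ∈ CG p F, (C (dsrc e) ↔ C (dtgt e)) := by
    intro e he
    rw [hC]
    constructor
    · rintro ⟨i, hi, h⟩
      exact ⟨i, hi, h.trans (DAdj.reach ⟨e, he, Or.inl ⟨rfl, rfl⟩⟩)⟩
    · rintro ⟨i, hi, h⟩
      exact ⟨i, hi, h.trans (DAdj.reach ⟨e, he, Or.inr ⟨rfl, rfl⟩⟩)⟩
  have hcin : ∀ x y, 0 ≤ y → C (x, y) → -M < x ∧ x < M ∧ y < M := by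
    intro x y hy h
    rw [hC] at h
    obtain ⟨i, hi, h⟩ := h
    by_contra hneg
    obtain ⟨J, hJ, hr⟩ := outerR (p := p) (M := M) hF (by omega) (by omega) (by omega)
      (f := (x, y)) hy (by simp only; omega)
    exact hcon' i J hi.1 hi.2 (by omega) (h.trans hr)
  have hcz : ∀ x y, 0 ≤ y → (x ≤ -M ∨ M ≤ x ∨ M ≤ y) → c x y = 0 := by
    intro x y hy h
    rw [hc]
    apply b2_not_of
    intro h2
    have := hcin x y hy h2
    omega
  -- the coboundary
  have hzT : ∀ x y, z (x, y, true) = w x y + w (x + 1) y := by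
    intro x y
    simp only [hz, hw, src_mk, tgt_true]
    by_cases hA : WX p F (x, y) <;> by_cases hB : WX p F (x + 1, y)
    · rw [b2_not_of (by simp [hA, hB]), b2_of hA, b2_of hB]; rfl
    · rw [b2_of (by simp [hA, hB]), b2_of hA, b2_not_of hB]; rfl
    · rw [b2_of (by simp [hA, hB]), b2_not_of hA, b2_of hB]; rfl
    · rw [b2_not_of (by simp [hA, hB]), b2_not_of hA, b2_not_of hB]; rfl
  have hzF : ∀ x y, z (x, y, false) = w x y + w x (y + 1) := by
    intro x y
    simp only [hz, hw, src_mk, tgt_false]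
    by_cases hA : WX p F (x, y) <;> by_cases hB : WX p F (x, y + 1)
    · rw [b2_not_of (by simp [hA, hB]), b2_of hA, b2_of hB]; rfl
    · rw [b2_of (by simp [hA, hB]), b2_of hA, b2_not_of hB]; rfl
    · rw [b2_of (by simp [hA, hB]), b2_not_of hA, b2_of hB]; rfl
    · rw [b2_not_of (by simp [hA, hB]), b2_not_of hA, b2_not_of hB]; rfl
  have hface : ∀ x y, z (x, y, true) + z (x, y + 1, true) + z (x, y, false) +
      z (x + 1, y, false) = 0 := by
    intro x y
    rw [hzT, hzT, hzF, hzF]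
    have h1 := zmod2_add_self (w x y)
    have h2 := zmod2_add_self (w (x + 1) y)
    have h3 := zmod2_add_self (w x (y + 1))
    have h4 := zmod2_add_self (w (x + 1) (y + 1))
    linear_combination h1 + h2 + h3 + h4
  have hcV : ∀ x y, 0 ≤ y → c x y * z (x, y + 1, true) = c x (y + 1) * z (x, y + 1, true) := by
    intro x y hy
    by_cases h : z (x, y + 1, true) = 0
    · rw [h, mul_zero, mul_zero]
    · have h1 := ha (x, y + 1, true) (by simp only; omega) h
      have h2 := hb _ h1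
      rw [dsrc_true, dtgt_mk, add_sub_cancel_right] at h2
      rw [hc]
      simp only
      rw [b2_congr h2]
  have hcH : ∀ x y, 0 ≤ y → c x y * z (x + 1, y, false) = c (x + 1) y * z (x + 1, y, false) := by
    intro x y hy
    by_cases h : z (x + 1, y, false) = 0
    · rw [h, mul_zero, mul_zero]
    · have h1 := ha (x + 1, y, false) (by simp only; omega) h
      have h2 := hb _ h1
      rw [dsrc_false, dtgt_mk, add_sub_cancel_right] at h2
      rw [hc]
      simp only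
      rw [b2_congr h2]
  -- rows
  obtain ⟨H, hH⟩ : ∃ H : ℤ → ZMod 2,
      H = fun y => ∑ x ∈ Finset.Ico (-M) M, c x y * z (x, y, true) := ⟨_, rfl⟩
  have hrow : ∀ y, 0 ≤ y → H y + H (y + 1) = 0 := by
    intro y hy
    have h1 : ∑ x ∈ Finset.Ico (-M) M, ((c x y * z (x, y, false)) +
        (c (x + 1) y * z (x + 1, y, false))) = 0 := by
      rw [telescope' (by omega) (fun x => c x y * z (x, y, false))]
      rw [hcz (-M) y hy (by omega), hcz M y hy (by omega)]
      ring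
    rw [hH]
    simp only
    rw [← Finset.sum_add_distrib]
    have h2 : ∀ x ∈ Finset.Ico (-M) M, c x y * z (x, y, true) +
        c x (y + 1) * z (x, y + 1, true) = (c x y * z (x, y, false)) +
        (c (x + 1) y * z (x + 1, y, false)) := by
      intro x _
      have h3 := hface x y
      have h4 := hcV x y hy
      have h5 := hcH x y hy
      have h6 := zmod2_add_self (c x y * z (x, y, false))
      have h7 := zmod2_add_self (c (x + 1) y * z (x + 1, y, false))
      rw [← h4, ← h5]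
      rw [← h5] at h7
      linear_combination (c x y) * h3 - h6 - h7
    rw [Finset.sum_congr rfl h2]
    exact h1
  have hHM : H M = 0 := by
    rw [hH]
    apply Finset.sum_eq_zero
    intro x _
    rw [hcz x M (by omega) (by omega), zero_mul]
  have hH0 : H 0 = 0 := by
    have key : ∀ n : ℕ, (n : ℤ) ≤ M → H (M - n) = 0 := by
      intro n
      induction n with
      | zero => intro _; simpa using hHM
      | succ n ih =>
        intro hn
        push_cast at hn ⊢
        have h1 := hrow (M - (n + 1)) (by omega)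
        have e : M - ((n : ℤ) + 1) + 1 = M - n := by ring
        rw [e, ih (by omega), add_zero] at h1
        exact h1
    have h1 := key M.toNat (by omega)
    have e : M - (M.toNat : ℤ) = 0 := by omega
    rwa [e] at h1
  -- the bottom row
  have hbot : H 0 = ∑ x ∈ Finset.Ico p s, z (x, 0, true) := by
    rw [hH]
    have hsub : Finset.Ico p s ⊆ Finset.Ico (-M) M := by
      intro x hx
      rw [Finset.mem_Ico] at hx ⊢
      omega
    simp only
    rw [← Finset.sum_subset hsub (f := fun x => c x 0 * z (x, 0, true))]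
    · apply Finset.sum_congr rfl
      intro x hx
      rw [Finset.mem_Ico] at hx
      by_cases h : z (x, 0, true) = 0
      · rw [h, mul_zero]
      · have h1 := ha (x, 0, true) (by simp) h
        have h2 : C (x, 0) := by
          rw [hC]
          exact ⟨x, hx, DAdj.reach ⟨(x, 0, true), h1, Or.inl ⟨by simp, rfl⟩⟩⟩
        rw [hc]
        simp only
        rw [b2_of h2, one_mul]
    · intro x _ hx
      rw [Finset.mem_Ico] at hx
      by_contra hne
      have hz0 : z (x, 0, true) ≠ 0 := fun h => hne (by rw [h, mul_zero])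
      have hc0 : c x 0 ≠ 0 := fun h => hne (by rw [h, zero_mul])
      have h1 := ha (x, 0, true) (by simp) hz0
      have h2 : C (x, 0) := by
        by_contra h
        apply hc0
        rw [hc]
        exact b2_not_of h
      have h3 := hb _ h1
      rw [dsrc_true, dtgt_mk] at h3
      have h4 := h3.mpr h2
      rw [hC] at h4
      obtain ⟨i, hi, h4⟩ := h4
      rcases lt_or_ge x p with hxp | hxp
      · exact h1.1 (Or.inr ⟨hxp, rfl, rfl⟩)
      · have : s ≤ x := by omega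
        exact hcon' i x hi.1 hi.2 this (by simpa using h4)
  rw [hH0] at hbot
  have htel : ∑ x ∈ Finset.Ico p s, z (x, 0, true) = w p 0 + w s 0 := by
    rw [← telescope' hps.le (fun x => w x 0)]
    exact Finset.sum_congr rfl fun x _ => hzT x 0
  rw [htel] at hbot
  have h1 : w p 0 = 1 := by
    rw [hw]
    exact b2_of (Reach.refl _ _)
  have h2 : w s 0 = 0 := by
    rw [hw]
    exact b2_not_of hW
  rw [h1, h2, add_zero] at hbot
  exact zero_ne_one hbot


/-- Faces joined to the bottom faces of `[-1, x)` by closed dual edges. -/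
def DD (x : ℤ) (F : Finset Edg) (f : Vtx) : Prop :=
  ∃ i, (-1 ≤ i ∧ i < x) ∧ DReach (CG (-1) F) (i, -1) f

open Classical in
/-- The edges of `S` next to these faces. -/
noncomputable def TT (S fr : Finset Edg) (x : ℤ) (F : Finset Edg) : Finset Edg :=
  S.filter (fun e => DD x (F ∪ fr) (dsrc e) ∨ DD x (F ∪ fr) (dtgt e))

theorem mem_TT {S fr : Finset Edg} {x : ℤ} {F : Finset Edg} {e : Edg} :
    e ∈ TT S fr x F ↔ e ∈ S ∧ (DD x (F ∪ fr) (dsrc e) ∨ DD x (F ∪ fr) (dtgt e)) := by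
  classical
  unfold TT
  simp only [Finset.mem_filter]

theorem DD_step {x : ℤ} {F : Finset Edg} {e : Edg} (he : e ∈ CG (-1) F) :
    DD x F (dsrc e) ↔ DD x F (dtgt e) := by
  constructor
  · rintro ⟨i, hi, h⟩
    exact ⟨i, hi, h.trans (DAdj.reach ⟨e, he, Or.inl ⟨rfl, rfl⟩⟩)⟩
  · rintro ⟨i, hi, h⟩
    exact ⟨i, hi, h.trans (DAdj.reach ⟨e, he, Or.inr ⟨rfl, rfl⟩⟩)⟩

/-- agreement on the explored edges -/
theorem agreeR {S fr : Finset Edg} {x : ℤ} {F G : Finset Edg} (hF : F ⊆ S) (hG : G ⊆ S)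
    (h : F ∩ TT S fr x F = G ∩ TT S fr x F) {e : Edg}
    (he : DD x (F ∪ fr) (dsrc e) ∨ DD x (F ∪ fr) (dtgt e)) :
    e ∈ CG (-1) (F ∪ fr) ↔ e ∈ CG (-1) (G ∪ fr) := by
  have h1 : e ∈ F ↔ e ∈ G := by
    by_cases hS : e ∈ S
    · have hT : e ∈ TT S fr x F := mem_TT.mpr ⟨hS, he⟩
      have := Finset.ext_iff.mp h e
      simp only [Finset.mem_inter, hT, and_true] at this
      exact this
    · exact ⟨fun h => absurd (hF h) hS, fun h => absurd (hG h) hS⟩
  unfold CG
  simp only [Set.mem_inter_iff, Set.mem_compl_iff, Set.mem_union, Finset.mem_coe,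
    Finset.mem_union, h1]

theorem fwdR {S fr : Finset Edg} {x : ℤ} {F G : Finset Edg} (hF : F ⊆ S) (hG : G ⊆ S)
    (h : F ∩ TT S fr x F = G ∩ TT S fr x F) {i : ℤ} (hi : -1 ≤ i ∧ i < x) {f : Vtx}
    (hr : DReach (CG (-1) (F ∪ fr)) (i, -1) f) : DReach (CG (-1) (G ∪ fr)) (i, -1) f := by
  have key : DD x (F ∪ fr) f ∧ DReach (CG (-1) (G ∪ fr)) (i, -1) f := by
    induction hr with
    | refl => exact ⟨⟨i, hi, DReach.refl _ _⟩, DReach.refl _ _⟩
    | @tail g g' _ hs ih =>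
      obtain ⟨e, he, hc⟩ := hs
      have hDe : DD x (F ∪ fr) (dsrc e) ∨ DD x (F ∪ fr) (dtgt e) := by
        rcases hc with ⟨h1, h2⟩ | ⟨h1, h2⟩
        · left; rw [h1]; exact ih.1
        · right; rw [h2]; exact ih.1
      have hst := DD_step (x := x) he
      constructor
      · rcases hc with ⟨h1, h2⟩ | ⟨h1, h2⟩
        · rw [← h2]; exact hst.mp (h1 ▸ ih.1)
        · rw [← h1]; exact hst.mpr (h2 ▸ ih.1)
      · exact ih.2.trans (DAdj.reach ⟨e, (agreeR hF hG h hDe).mp he, hc⟩)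
  exact key.2

theorem bwdR {S fr : Finset Edg} {x : ℤ} {F G : Finset Edg} (hF : F ⊆ S) (hG : G ⊆ S)
    (h : F ∩ TT S fr x F = G ∩ TT S fr x F) {i : ℤ} (hi : -1 ≤ i ∧ i < x) {f : Vtx}
    (hr : DReach (CG (-1) (G ∪ fr)) (i, -1) f) : DReach (CG (-1) (F ∪ fr)) (i, -1) f := by
  have key : DD x (F ∪ fr) f ∧ DReach (CG (-1) (F ∪ fr)) (i, -1) f := by
    induction hr with
    | refl => exact ⟨⟨i, hi, DReach.refl _ _⟩, DReach.refl _ _⟩
    | @tail g g' _ hs ih =>
      obtain ⟨e, he, hc⟩ := hs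
      have hDe : DD x (F ∪ fr) (dsrc e) ∨ DD x (F ∪ fr) (dtgt e) := by
        rcases hc with ⟨h1, h2⟩ | ⟨h1, h2⟩
        · left; rw [h1]; exact ih.1
        · right; rw [h2]; exact ih.1
      have heF := (agreeR hF hG h hDe).mpr he
      have hst := DD_step (x := x) heF
      constructor
      · rcases hc with ⟨h1, h2⟩ | ⟨h1, h2⟩
        · rw [← h2]; exact hst.mp (h1 ▸ ih.1)
        · rw [← h1]; exact hst.mpr (h2 ▸ ih.1)
      · exact ih.2.trans (DAdj.reach ⟨e, heF, hc⟩)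
  exact key.2

theorem DD_iff {S fr : Finset Edg} {x : ℤ} {F G : Finset Edg} (hF : F ⊆ S) (hG : G ⊆ S)
    (h : F ∩ TT S fr x F = G ∩ TT S fr x F) (f : Vtx) : DD x (F ∪ fr) f ↔ DD x (G ∪ fr) f :=
  ⟨fun ⟨i, hi, hr⟩ => ⟨i, hi, fwdR hF hG h hi hr⟩, fun ⟨i, hi, hr⟩ => ⟨i, hi, bwdR hF hG h hi hr⟩⟩

theorem TT_stop {S fr : Finset Edg} {x : ℤ} {F G : Finset Edg} (hF : F ⊆ S) (hG : G ⊆ S)
    (h : F ∩ TT S fr x F = G ∩ TT S fr x F) : TT S fr x G = TT S fr x F := by
  ext e
  rw [mem_TT, mem_TT, DD_iff hF hG h, DD_iff hF hG h]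

/-- `x` is visited and no point of `P` to the left of `x` is. -/
def AW (P : ℤ → Prop) (fr : Finset Edg) (x : ℤ) (F : Finset Edg) : Prop :=
  WX (-1) (F ∪ fr) (x, 0) ∧ ∀ s, P s → 0 ≤ s → s < x → ¬ WX (-1) (F ∪ fr) (s, 0)

theorem RE_pos {N : ℤ} {F : Finset Edg} (hF : F ⊆ RE (-N) N 0 N) : ∀ e ∈ F, 0 ≤ e.2.1 := by
  intro e he
  have := hF he
  obtain ⟨x, y, b⟩ := e
  cases b
  · rw [mem_RE_false] at this; simp only; omega
  · rw [mem_RE_true] at this; simp only; omega

theorem no_farR {N x : ℤ} {F : Finset Edg} (hF : F ⊆ RE (-N) N 0 N) (hW : WX (-1) F (x, 0)) {j : ℤ}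
    (hj : x ≤ j) : ¬ DD x F (j, -1) := by
  rintro ⟨i, hi, hr⟩
  exact du_easy (RE_pos hF) hi.1 hi.2 hj hr hW

theorem AW_stop {N x : ℤ} (hx : 0 ≤ x) {P : ℤ → Prop} {S fr F G : Finset Edg}
    (hS : S ∪ fr ⊆ RE (-N) N 0 N) (hF : F ⊆ S) (hG : G ⊆ S)
    (h : F ∩ TT S fr x F = G ∩ TT S fr x F) (hA : AW P fr x F) : AW P fr x G := by
  have hF' : F ∪ fr ⊆ RE (-N) N 0 N := (Finset.union_subset_union_left hF).trans hS
  have hG' : G ∪ fr ⊆ RE (-N) N 0 N := (Finset.union_subset_union_left hG).trans hS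
  constructor
  · by_contra hW
    obtain ⟨i, j, hi, hj, hr⟩ := du_hardR hG' (by omega) hW
    exact no_farR hF' hA.1 hj ⟨i, hi, bwdR hF hG h hi hr⟩
  · intro s hs hs0 hsx
    obtain ⟨i, j, hi, hj, hr⟩ := du_hardR hF' (by omega) (hA.2 s hs hs0 hsx)
    have hix : -1 ≤ i ∧ i < x := by omega
    exact du_easy (RE_pos hG') hi.1 hi.2 hj (fwdR hF hG h hix hr)

theorem afterR {N x y : ℤ} (hx : 0 ≤ x) (hxy : x < y) {P : ℤ → Prop} {S fr F G : Finset Edg}
    (hS : S ∪ fr ⊆ RE (-N) N 0 N) (hF : F ⊆ S) (hG : G ⊆ S)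
    (h : F \ TT S fr x F = G \ TT S fr x F) (hA : AW P fr x F)
    (hy : ¬ WX (-1) (F ∪ fr) (y, 0)) : ¬ WX x (G ∪ fr) (y, 0) := by
  have hF' : F ∪ fr ⊆ RE (-N) N 0 N := (Finset.union_subset_union_left hF).trans hS
  have hG' : G ∪ fr ⊆ RE (-N) N 0 N := (Finset.union_subset_union_left hG).trans hS
  obtain ⟨i, j, hi, hj, hr⟩ := du_hardR hF' (by omega) hy
  have hnj : ¬ DD x (F ∪ fr) (j, -1) := no_farR hF' hA.1 (by omega)
  have hix : x ≤ i := by
    by_contra hlt
    exact hnj ⟨i, ⟨hi.1, by omega⟩, hr⟩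
  have hni : ¬ DD x (F ∪ fr) (i, -1) := by
    rintro ⟨i', hi', hr'⟩
    exact hnj ⟨i', hi', hr'.trans hr⟩
  have key : ∀ f, DReach (CG (-1) (F ∪ fr)) (i, -1) f →
      ¬ DD x (F ∪ fr) f ∧ DReach (CG x (G ∪ fr)) (i, -1) f := by
    intro f hf
    induction hf with
    | refl => exact ⟨hni, DReach.refl _ _⟩
    | @tail g g' _ hs ih =>
      obtain ⟨e, he, hc⟩ := hs
      have hst := DD_step (x := x) he
      have h1 : ¬ DD x (F ∪ fr) (dsrc e) ∧ ¬ DD x (F ∪ fr) (dtgt e) := by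
        rcases hc with ⟨h1, h2⟩ | ⟨h1, h2⟩
        · have := ih.1
          rw [← h1] at this
          exact ⟨this, fun h => this (hst.mpr h)⟩
        · have := ih.1
          rw [← h2] at this
          exact ⟨fun h => this (hst.mp h), this⟩
      have hT : e ∉ TT S fr x F := by
        intro h
        rcases (mem_TT.mp h).2 with h | h
        · exact h1.1 h
        · exact h1.2 h
      have heG : e ∉ G := by
        intro heG
        have h3 := Finset.ext_iff.mp h e
        simp only [Finset.mem_sdiff, hT, not_false_eq_true, and_true] at h3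
        exact he.1 (Or.inl (Finset.mem_coe.mpr (Finset.mem_union_left _ (h3.mpr heG))))
      have hefr : e ∉ fr := by
        intro hefr
        exact he.1 (Or.inl (Finset.mem_coe.mpr (Finset.mem_union_right _ hefr)))
      have heN : e ∉ NX x := by
        intro hN
        obtain ⟨a, b, bo⟩ := e
        obtain ⟨hN1, hN2, hN3⟩ := hN
        simp only at hN1 hN2 hN3
        subst hN2
        subst hN3
        rcases lt_or_ge a (-1) with h0 | h0
        · exact he.1 (Or.inr ⟨h0, rfl, rfl⟩)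
        · apply h1.1
          refine ⟨a, ⟨h0, hN1⟩, ?_⟩
          rw [dsrc_true]
          simpa using DReach.refl (CG (-1) (F ∪ fr)) ((a, -1) : Vtx)
      constructor
      · rcases hc with ⟨h2, h3⟩ | ⟨h2, h3⟩
        · rw [← h3]; exact h1.2
        · rw [← h2]; exact h1.1
      · refine ih.2.trans (DAdj.reach ⟨e, ⟨?_, he.2⟩, hc⟩)
        rintro (h3 | h3)
        · rcases Finset.mem_union.mp (Finset.mem_coe.mp h3) with h4 | h4
          · exact heG h4
          · exact hefr h4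
        · exact heN h3
  exact du_easy (RE_pos hG') hix hi.2 hj (key _ hr).2

/-- **Domination**. -/
theorem dominationR {N x y : ℤ} (hx : 0 ≤ x) (hxy : x < y) (Q : ℤ → Prop) {S fr : Finset Edg}
    (hS : S ∪ fr ⊆ RE (-N) N 0 N) :
    Pr (fun _ : Edg => (1/2 : ℝ)) S (AW Q fr x) *
      Pr (fun _ : Edg => (1/2 : ℝ)) S (fun F => WX x (F ∪ fr) (y, 0)) ≤
      Pr (fun _ : Edg => (1/2 : ℝ)) S (fun F => AW Q fr x F ∧ WX (-1) (F ∪ fr) (y, 0)) := by
  have h := swap (S := S) (TT S fr x) (A := AW Q fr x)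
    (B := fun F => ¬ WX x (F ∪ fr) (y, 0)) (B' := fun F => ¬ WX (-1) (F ∪ fr) (y, 0))
    (fun F G hF hG h => TT_stop hF hG h) (fun F G hF hG h hA => AW_stop hx hS hF hG h hA)
    (fun F G hF hG h hA hB => afterR hx hxy hS hF hG h hA hB)
  have h1 : Pr (fun _ : Edg => (1/2 : ℝ)) S (AW Q fr x) =
      Pr (fun _ : Edg => (1/2 : ℝ)) S (fun F => AW Q fr x F ∧ WX (-1) (F ∪ fr) (y, 0)) +
      Pr (fun _ : Edg => (1/2 : ℝ)) S (fun F => AW Q fr x F ∧ ¬ WX (-1) (F ∪ fr) (y, 0)) := by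
    unfold Pr
    rw [← Ex_add]
    apply Ex_congr
    intro F _
    rw [ind_and, ind_and, ind_not]
    ring
  have h2 : Pr (fun _ : Edg => (1/2 : ℝ)) S (fun F => ¬ WX x (F ∪ fr) (y, 0)) =
      1 - Pr (fun _ : Edg => (1/2 : ℝ)) S (fun F => WX x (F ∪ fr) (y, 0)) := Pr_not _ _
  rw [h2] at h
  linarith


end Pool.Agent.TH966.CC
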