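import Pool.Agent.TH966.CC.Pts

/-!
A boundary point is joined to the boundary points on the left of a given one: lower bound.
-/

set_option autoImplicit false
set_option maxHeartbeats 1000000

namespace Pool.Agent.TH966.CC

open H974 H973 H934E Finset
open Pool.Agent.TH966.GB Pool.Agent.H160R2.CV
open Pool.Agent.H160R2.CV.Quad

theorem Lf_incr (S : Finset Edg) (b m x y : ℤ) : IncrE S (fun F => Lf b m x F y) := by
  rintro F G h h' (hU | ⟨i, h1, h2⟩)
  · exact Or.inl (Up_incr S b m y F G h h' hU)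
  · exact Or.inr ⟨i, h1, h2.mono (Set.inter_subset_inter_left _ (by exact_mod_cast h))⟩

theorem left_low (κ : ℤ) (hκ : 1 ≤ κ) : ∃ c : ℝ, 0 < c ∧ ∀ b m x y : ℤ, 1 ≤ b → b ≤ κ * m →
    m ≤ κ * b → Mid κ b y → 0 ≤ x → x < y →
    c * q (y - x) ≤ Pr P (RE 0 b 0 m) (fun F => Lf b m x F y) := by
  obtain ⟨c, C, hc, hC, h⟩ := pa_bounds
  obtain ⟨c1, hc1, h1⟩ := one_low κ hκ
  have hkp := kp_pos
  have hκ0 : (0 : ℝ) < κ := by exact_mod_cast (by omega : 0 < κ)
  refine ⟨min (c * kp / 3) (c1 / (6 * κ)), lt_min (by positivity) (by positivity),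
    fun b m x y hb hbm hmb hy hx hxy => ?_⟩
  obtain ⟨R, hR⟩ : ∃ R, R = b / κ := ⟨_, rfl⟩
  obtain ⟨n, hn⟩ : ∃ n, n = y - x := ⟨_, rfl⟩
  rw [← hn]
  have hn1 : 1 ≤ n := by omega
  have hqn := q_pos (n := n) (by omega)
  by_cases hR3 : 3 * n ≤ R
  · obtain ⟨g1, g2⟩ := hy.rad hκ hR
    have hRm : R ≤ m := by
      have h3 : κ * R ≤ b := by rw [hR]; exact Int.mul_ediv_self_le (by omega)
      exact le_of_mul_le_mul_left (h3.trans hbm) (by omega)
    have hsub : RE (y - 3 * n) (y + 3 * n) 0 (3 * n) ⊆ RE 0 b 0 m :=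
      RE_subset (by omega) (by omega) le_rfl (by omega)
    have e1 : Pr P (RE 0 b 0 m) (Ar y (3 * n)) = pa (3 * n) := pr_Ar (by omega) hsub
    have e2 : kp ≤ Pr P (RE 0 b 0 m) (HC y n (3 * n)) := pr_HC (by omega) hsub
    have i1 : IncrE (RE 0 b 0 m) (Ar y (3 * n)) := Ar_incr _ _ _
    have i2 : IncrE (RE 0 b 0 m) (HC y n (3 * n)) := HC_incr _ _ _ _
    have q1 := Pr_harris okP i1 i2
    have hdet : Pr P (RE 0 b 0 m) (fun F => Ar y (3 * n) F ∧ HC y n (3 * n) F) ≤
        Pr P (RE 0 b 0 m) (fun F => Lf b m x F y) := by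
      refine Pr_mono okP ?_
      rintro F hF ⟨hA, hH⟩
      obtain ⟨z, y1, y2⟩ := hA
      obtain ⟨l, l1, l2, hz⟩ := hc_meet (by omega) (by omega) hH
      have r1 := hz (y, 0) z (by unfold inR; simp only; omega) y1 y2
      have hs : (↑F : Set Edg) ∩ ↑(RE (y - 3 * n) (y + 3 * n) 0 (3 * n)) ⊆
          ↑F ∩ ↑(RE 0 b 0 m) := Set.inter_subset_inter_right _ (by exact_mod_cast hsub)
      exact Or.inr ⟨l, by omega, r1.mono hs⟩
    have hpa : c / 3 * q n ≤ pa (3 * n) := by
      have h1 := (h (3 * n) (by omega)).1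
      change c ≤ th (3 * n) * pa (3 * n) at h1
      have h2 := th_pos (n := 3 * n) (by omega)
      have h3 := th_pos (n := n + 1) (by omega)
      have h4 : th (3 * n) ≤ 3 * th (n + 1) := by
        have := th_mul (c := 3) (n := n + 1) (by norm_num) (by omega)
        have h6 : th (3 * n) ≤ th (3 * (n + 1)) := th_mono (by omega) (by omega)
        have h7 : ((3 : ℤ) : ℝ) = 3 := by norm_num
        rw [h7] at this
        linarith
      have h5 : 0 ≤ pa (3 * n) := pa_nonneg _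
      unfold q
      rw [mul_one_div, div_le_iff₀ h3]
      nlinarith
    calc min (c * kp / 3) (c1 / (6 * κ)) * q n ≤ (c * kp / 3) * q n :=
          mul_le_mul_of_nonneg_right (min_le_left _ _) hqn.le
      _ = (c / 3 * q n) * kp := by ring
      _ ≤ pa (3 * n) * kp := mul_le_mul_of_nonneg_right hpa hkp.le
      _ ≤ Pr P (RE 0 b 0 m) (Ar y (3 * n)) * Pr P (RE 0 b 0 m) (HC y n (3 * n)) := by
          rw [e1]
          exact mul_le_mul_of_nonneg_left e2 (pa_nonneg _)
      _ ≤ _ := q1.trans hdet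
  · have h2 : b < κ * (R + 1) := by
      have := Int.lt_ediv_add_one_mul_self b (show (0 : ℤ) < κ by omega)
      rw [hR]; linarith
    have h3 : b + 1 ≤ (6 * κ) * (n + 1) := by nlinarith
    have h4 := q_cmp (a := b) (b := n) (k := 6 * κ) (by omega) (by omega) (by omega) h3
    push_cast at h4
    have h5 := h1 b m y hb hbm hmb hy
    calc min (c * kp / 3) (c1 / (6 * κ)) * q n ≤ c1 / (6 * κ) * q n :=
          mul_le_mul_of_nonneg_right (min_le_right _ _) hqn.le
      _ ≤ c1 / (6 * κ) * (6 * κ * q b) := mul_le_mul_of_nonneg_left h4 (by positivity)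
      _ = c1 * q b := by field_simp
      _ ≤ _ := h5.trans (Pr_mono okP (fun F _ hF => Or.inl hF))

end Pool.Agent.TH966.CC
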