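import Pool.Agent.TH966.CC.Dom
import Pool.Agent.TH966.CC.Left

/-!
The domination inequality for rectangles.
-/

set_option autoImplicit false
set_option maxHeartbeats 1000000

namespace Pool.Agent.TH966.CC

open H974 H973 H934E Finset H731C
open TH868.CT (NX WX)
open Pool.Agent.TH966.GB Pool.Agent.H160R2.CV
open Pool.Agent.H160R2.CV.Quad

/-- A wired frame joining the upper side to the vertex `(-1, 0)`. -/
noncomputable def frm (b m : ℤ) : Finset Edg :=
  (RE (-1) b 0 (m + 1)).filter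
    (fun e => (e.1 = -1 ∧ e.2.2 = false) ∨ e.2.1 = m + 1 ∨ (e.2.1 = m ∧ e.2.2 = false))

theorem mem_frm {b m : ℤ} {e : Edg} : e ∈ frm b m ↔ e ∈ RE (-1) b 0 (m + 1) ∧
    ((e.1 = -1 ∧ e.2.2 = false) ∨ e.2.1 = m + 1 ∨ (e.2.1 = m ∧ e.2.2 = false)) := by
  unfold frm
  rw [Finset.mem_filter]

theorem vpath {G : Set Edg} {x a b : ℤ} (hab : a ≤ b)
    (h : ∀ y, a ≤ y → y < b → ((x, y, false) : Edg) ∈ G) : Reach G (x, a) (x, b) := by
  obtain ⟨n, hn⟩ := Int.eq_ofNat_of_zero_le (sub_nonneg.mpr hab)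
  have key : ∀ k : ℕ, a + k ≤ b → Reach G (x, a) (x, a + k) := by
    intro k
    induction k with
    | zero => intro _; simpa using Reach.refl G (x, a)
    | succ k ih =>
      intro hk
      push_cast at hk
      refine (ih (by omega)).trans (Adj.reach ⟨(x, a + k, false), h _ (by omega) (by omega),
        Or.inl ⟨?_, ?_⟩⟩)
      · simp
      · simp only [tgt_false]; push_cast; congr 1; ring
  have h3 := key n (by omega)
  have e : b = a + n := by omega
  rw [e]; exact h3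

theorem hpath {G : Set Edg} {a b y : ℤ} (hab : a ≤ b)
    (h : ∀ x, a ≤ x → x < b → ((x, y, true) : Edg) ∈ G) : Reach G (a, y) (b, y) := by
  obtain ⟨n, hn⟩ := Int.eq_ofNat_of_zero_le (sub_nonneg.mpr hab)
  have key : ∀ k : ℕ, a + k ≤ b → Reach G (a, y) (a + k, y) := by
    intro k
    induction k with
    | zero => intro _; simpa using Reach.refl G (a, y)
    | succ k ih =>
      intro hk
      push_cast at hk
      refine (ih (by omega)).trans (Adj.reach ⟨(a + k, y, true), h _ (by omega) (by omega),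
        Or.inl ⟨?_, ?_⟩⟩)
      · simp
      · simp only [tgt_true]; push_cast; congr 1; ring
  have h3 := key n (by omega)
  have e : b = a + n := by omega
  rw [e]; exact h3

/-- The vertices joined to the frame. -/
def QQ (b m : ℤ) (F : Finset Edg) (v : Vtx) : Prop :=
  v.1 ≤ -1 ∨ m + 1 ≤ v.2 ∨ ∃ t : ℤ, (0 ≤ t ∧ t ≤ b) ∧ Reach (↑F ∩ ↑(RE 0 b 0 m)) v (t, m)

theorem QQ_step {b m : ℤ} {F : Finset Edg} (hF : F ⊆ RE 0 b 0 m) {e : Edg}
    (he : e ∈ (↑(F ∪ frm b m) ∪ NX (-1) : Set Edg)) : QQ b m F (src e) ↔ QQ b m F (tgt e) := by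
  rcases he with he | he
  · rcases Finset.mem_union.mp (Finset.mem_coe.mp he) with h | h
    · have hR := hF h
      have hin : 0 ≤ (src e).1 ∧ (src e).2 ≤ m ∧ 0 ≤ (tgt e).1 ∧ (tgt e).2 ≤ m := by
        obtain ⟨x, y, bo⟩ := e
        cases bo
        · rw [mem_RE_false] at hR; simp only [src_mk, tgt_false]; omega
        · rw [mem_RE_true] at hR; simp only [src_mk, tgt_true]; omega
      have hr : Reach (↑F ∩ ↑(RE 0 b 0 m)) (src e) (tgt e) :=
        Adj.reach ⟨e, ⟨Finset.mem_coe.mpr h, Finset.mem_coe.mpr hR⟩, Or.inl ⟨rfl, rfl⟩⟩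
      constructor
      · rintro (h1 | h1 | ⟨t, ht, h1⟩)
        · omega
        · omega
        · exact Or.inr (Or.inr ⟨t, ht, hr.symm.trans h1⟩)
      · rintro (h1 | h1 | ⟨t, ht, h1⟩)
        · omega
        · omega
        · exact Or.inr (Or.inr ⟨t, ht, hr.trans h1⟩)
    · obtain ⟨hR, h⟩ := mem_frm.mp h
      obtain ⟨x, y, bo⟩ := e
      simp only at h
      cases bo
      · rw [mem_RE_false] at hR
        simp only [src_mk, tgt_false]
        rcases h with h | h | h
        · exact ⟨fun _ => Or.inl (by simp only; omega), fun _ => Or.inl (by simp only; omega)⟩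
        · omega
        · rcases lt_or_ge x 0 with hx | hx
          · exact ⟨fun _ => Or.inl (by simp only; omega), fun _ => Or.inl (by simp only; omega)⟩
          · refine ⟨fun _ => Or.inr (Or.inl (by simp only; omega)), fun _ => Or.inr (Or.inr
              ⟨x, by omega, ?_⟩)⟩
            rw [h.1]
            exact Reach.refl _ _
      · rw [mem_RE_true] at hR
        simp only [src_mk, tgt_true]
        rcases h with h | h | h
        · exact absurd h.2 (by simp)
        · exact ⟨fun _ => Or.inr (Or.inl (by simp only; omega)),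
            fun _ => Or.inr (Or.inl (by simp only; omega))⟩
        · exact absurd h.2 (by simp)
  · obtain ⟨x, y, bo⟩ := e
    obtain ⟨h1, h2, h3⟩ := he
    simp only at h1 h2 h3
    subst h3
    simp only [src_mk, tgt_true]
    exact ⟨fun _ => Or.inl (by simp only; omega), fun _ => Or.inl (by simp only; omega)⟩

theorem QQ_reach {b m : ℤ} {F : Finset Edg} (hF : F ⊆ RE 0 b 0 m) {u v : Vtx}
    (h : Reach (↑(F ∪ frm b m) ∪ NX (-1)) u v) (hu : QQ b m F u) : QQ b m F v := by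
  induction h with
  | refl => exact hu
  | tail _ hs ih =>
    obtain ⟨e, he, hc⟩ := hs
    have hst := QQ_step hF he
    rcases hc with ⟨h1, h2⟩ | ⟨h1, h2⟩
    · rw [← h2]; exact hst.mp (h1 ▸ ih)
    · rw [← h1]; exact hst.mpr (h2 ▸ ih)

theorem top_reach {b m t : ℤ} (F : Finset Edg) (hm : 0 ≤ m) (ht : 0 ≤ t ∧ t ≤ b) :
    Reach (↑(F ∪ frm b m) : Set Edg) (-1, 0) (t, m) := by
  have s1 : Reach (↑(F ∪ frm b m) : Set Edg) (-1, 0) (-1, m + 1) := by
    apply vpath (by omega)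
    intro y h1 h2
    rw [Finset.mem_coe, Finset.mem_union, mem_frm, mem_RE_false]
    right
    refine ⟨by omega, Or.inl ⟨rfl, rfl⟩⟩
  have s2 : Reach (↑(F ∪ frm b m) : Set Edg) (-1, m + 1) (t, m + 1) := by
    apply hpath (by omega)
    intro x h1 h2
    rw [Finset.mem_coe, Finset.mem_union, mem_frm, mem_RE_true]
    right
    refine ⟨by omega, Or.inr (Or.inl rfl)⟩
  have s3 : Reach (↑(F ∪ frm b m) : Set Edg) (t, m) (t, m + 1) := by
    apply vpath (by omega)
    intro y h1 h2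
    rw [Finset.mem_coe, Finset.mem_union, mem_frm, mem_RE_false]
    right
    refine ⟨by omega, Or.inr (Or.inr ⟨by simp only; omega, rfl⟩)⟩
  exact s1.trans (s2.trans s3.symm)

theorem F_sub {b m : ℤ} (F : Finset Edg) :
    (↑F ∩ ↑(RE 0 b 0 m) : Set Edg) ⊆ ↑(F ∪ frm b m) := fun _ he =>
  Finset.mem_coe.mpr (Finset.mem_union_left _ (Finset.mem_coe.mp he.1))

theorem wx_iff {b m s : ℤ} {F : Finset Edg} (hF : F ⊆ RE 0 b 0 m) (hm : 0 ≤ m) (hs : 0 ≤ s) :
    TH868.CT.WX (-1) (F ∪ frm b m) (s, 0) ↔ Up b m F s := by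
  constructor
  · intro h
    rcases QQ_reach hF h (Or.inl (by simp)) with h1 | h1 | ⟨t, ht, h1⟩
    · simp only at h1; omega
    · simp only at h1; omega
    · exact ⟨t, ht, h1⟩
  · rintro ⟨t, ht, h1⟩
    exact ((top_reach F hm ht).mono Set.subset_union_left).trans
      ((h1.symm.mono (F_sub F)).mono Set.subset_union_left)

theorem nx_reach {i x : ℤ} (G : Set Edg) (h : i ≤ x) :
    Reach (G ∪ NX x) (x, 0) (i, 0) := by
  apply Reach.symm
  apply hpath h
  intro z h1 h2
  exact Or.inr ⟨h2, rfl, rfl⟩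

theorem lf_wx {b m x y : ℤ} {F : Finset Edg} (hm : 0 ≤ m) (hx : 0 ≤ x)
    (h : Lf b m x F y) : TH868.CT.WX x (F ∪ frm b m) (y, 0) := by
  rcases h with ⟨t, ht, h1⟩ | ⟨i, hi, h1⟩
  · exact (nx_reach (i := -1) _ (by omega)).trans (((top_reach F hm ht).mono
      Set.subset_union_left).trans
      ((h1.symm.mono (F_sub F)).mono Set.subset_union_left))
  · exact (nx_reach _ hi.2).trans ((h1.symm.mono (F_sub F)).mono Set.subset_union_left)

/-- `x` is joined to the top and no point of `Q` to the left of `x` is. -/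
def AU (b m : ℤ) (Q : ℤ → Prop) (x : ℤ) (F : Finset Edg) : Prop :=
  Up b m F x ∧ ∀ s, Q s → 0 ≤ s → s < x → ¬ Up b m F s

theorem aw_iff {b m x : ℤ} {Q : ℤ → Prop} {F : Finset Edg} (hF : F ⊆ RE 0 b 0 m) (hm : 0 ≤ m)
    (hx : 0 ≤ x) : AW Q (frm b m) x F ↔ AU b m Q x F := by
  unfold AW AU
  rw [wx_iff hF hm hx]
  constructor
  · rintro ⟨h1, h2⟩
    refine ⟨h1, fun s hs hs0 hsx h3 => h2 s hs hs0 hsx ((wx_iff hF hm hs0).mpr h3)⟩
  · rintro ⟨h1, h2⟩
    refine ⟨h1, fun s hs hs0 hsx h3 => h2 s hs hs0 hsx ((wx_iff hF hm hs0).mp h3)⟩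

/-- **Domination** in rectangles. -/
theorem dom {b m x y : ℤ} (hm : 0 ≤ m) (hx : 0 ≤ x) (hxy : x < y) (Q : ℤ → Prop) :
    Pr P (RE 0 b 0 m) (AU b m Q x) * Pr P (RE 0 b 0 m) (fun F => Lf b m x F y) ≤
      Pr P (RE 0 b 0 m) (fun F => AU b m Q x F ∧ Up b m F y) := by
  have hS : RE 0 b 0 m ∪ frm b m ⊆ RE (-(|b| + |m| + 2)) (|b| + |m| + 2) 0 (|b| + |m| + 2) := by
    have h1 := le_abs_self b
    have h2 := le_abs_self m
    have h3 := abs_nonneg b
    have h4 := abs_nonneg m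
    apply Finset.union_subset
    · exact RE_subset (by omega) (by omega) (by omega) (by omega)
    · intro e he
      exact RE_subset (by omega) (by omega) (by omega) (by omega) (mem_frm.mp he).1
  have h := dominationR (N := |b| + |m| + 2) (x := x) (y := y) hx hxy Q hS
  have e1 : Pr P (RE 0 b 0 m) (AU b m Q x) = Pr (fun _ : Edg => (1/2 : ℝ)) (RE 0 b 0 m)
      (AW Q (frm b m) x) := Pr_congr (fun F hF => (aw_iff hF hm hx).symm)
  have e2 : Pr P (RE 0 b 0 m) (fun F => AU b m Q x F ∧ Up b m F y) =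
      Pr (fun _ : Edg => (1/2 : ℝ)) (RE 0 b 0 m)
      (fun F => AW Q (frm b m) x F ∧ TH868.CT.WX (-1) (F ∪ frm b m) (y, 0)) :=
    Pr_congr (fun F hF => by rw [aw_iff hF hm hx, wx_iff hF hm (by omega)])
  have e3 : Pr P (RE 0 b 0 m) (fun F => Lf b m x F y) ≤ Pr (fun _ : Edg => (1/2 : ℝ))
      (RE 0 b 0 m) (fun F => TH868.CT.WX x (F ∪ frm b m) (y, 0)) :=
    Pr_mono okP (fun F _ hF => lf_wx hm hx hF)
  rw [e1, e2]
  exact (mul_le_mul_of_nonneg_left e3 (Pr_nonneg okP _ _)).trans h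

end Pool.Agent.TH966.CC
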