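import Pool.Agent.TH966.CC.Two

/-!
Comparison of connection probabilities of a rectangle with capacities.
-/

set_option autoImplicit false
set_option maxHeartbeats 1000000

namespace Pool.Agent.TH966.CC

open H974 H973 H934E Finset
open Pool.Agent.TH966.GB Pool.Agent.H160R2.CV
open Pool.Agent.H160R2.CV.Quad

/-- The values of the reciprocal of the energy. -/
def CS (b : ℤ) (S : Finset ℤ) : Set ℝ :=
  {r | ∃ v : ℤ → ℝ, (∀ x ∈ S, 0 ≤ v x) ∧ ∑ x ∈ S, v x = 1 ∧ r = 1 / en b S v}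

/-- The capacity. -/
noncomputable def Cap (b : ℤ) (S : Finset ℤ) : ℝ := sSup (CS b S)

theorem CS_empty (b : ℤ) : CS b ∅ = ∅ := by
  ext r
  simp [CS]

theorem Cap_empty (b : ℤ) : Cap b ∅ = 0 := by
  unfold Cap
  rw [CS_empty, Real.sSup_empty]

theorem CS_le {κ b : ℤ} (hκ : 1 ≤ κ) (hb : 0 ≤ b) {S : Finset ℤ} (hS : ∀ x ∈ S, Mid κ b x) {r : ℝ}
    (hr : r ∈ CS b S) : 0 ≤ r ∧ r ≤ 1 := by
  obtain ⟨v, hv, hv1, rfl⟩ := hr
  have h := en_ge hb (mid_abs hκ hb hS) hv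
  rw [hv1, one_pow] at h
  constructor
  · exact div_nonneg zero_le_one (by linarith)
  · rw [div_le_one (by linarith)]
    exact h

theorem CS_bdd {κ b : ℤ} (hκ : 1 ≤ κ) (hb : 0 ≤ b) {S : Finset ℤ} (hS : ∀ x ∈ S, Mid κ b x) :
    BddAbove (CS b S) := ⟨1, fun _ hr => (CS_le hκ hb hS hr).2⟩

theorem CS_nonempty {b : ℤ} {S : Finset ℤ} (h : S.Nonempty) : (CS b S).Nonempty := by
  obtain ⟨x, hx⟩ := h
  refine ⟨_, fun y => if y = x then 1 else 0, fun y _ => ?_, ?_, rfl⟩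
  · show (0 : ℝ) ≤ if y = x then 1 else 0
    split_ifs <;> norm_num
  · rw [Finset.sum_ite_eq' S x (fun _ => (1 : ℝ)), if_pos hx]

theorem Cap_nonneg (κ : ℤ) {b : ℤ} (hκ : 1 ≤ κ) (hb : 0 ≤ b) {S : Finset ℤ}
    (hS : ∀ x ∈ S, Mid κ b x) : 0 ≤ Cap b S :=
  Real.sSup_nonneg (fun _ hr => (CS_le hκ hb hS hr).1)

/-- **One side**. -/
theorem one_cap (κ : ℤ) (hκ : 1 ≤ κ) : ∃ c C : ℝ, 0 < c ∧ 0 < C ∧ ∀ b m : ℤ, 1 ≤ b → b ≤ κ * m →
    m ≤ κ * b → ∀ S : Finset ℤ, (∀ x ∈ S, Mid κ b x) →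
    c * Cap b S ≤ Pr P (RE 0 b 0 m) (Hit b m S) ∧
      Pr P (RE 0 b 0 m) (Hit b m S) ≤ C * Cap b S := by
  obtain ⟨c, hc, h1⟩ := cap_low κ hκ
  obtain ⟨C, hC, h2⟩ := cap_up κ hκ
  refine ⟨c, C, hc, hC, fun b m hb hbm hmb S hS => ⟨?_, ?_⟩⟩
  · have h3 := h1 b m hb hbm hmb S hS
    have h0 : 0 ≤ Pr P (RE 0 b 0 m) (Hit b m S) := Pr_nonneg okP _ _
    rcases S.eq_empty_or_nonempty with he | he
    · rw [he, Cap_empty, mul_zero]
      exact Pr_nonneg okP _ _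
    · have : Cap b S ≤ Pr P (RE 0 b 0 m) (Hit b m S) / c := by
        apply csSup_le (CS_nonempty he)
        rintro r ⟨v, hv, hv1, rfl⟩
        have h4 := h3 v hv hv1
        rw [le_div_iff₀ hc]
        calc 1 / en b S v * c = c / en b S v := by ring
          _ ≤ _ := h4
      rw [le_div_iff₀ hc] at this
      linarith
  · have hC0 := Cap_nonneg κ hκ (show 0 ≤ b by omega) hS
    rcases lt_or_ge 0 (Pr P (RE 0 b 0 m) (Hit b m S)) with h3 | h3
    · obtain ⟨v, hv, hv1, h4⟩ := h2 b m hb hbm hmb S hS h3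
      have h5 : 1 / en b S v ≤ Cap b S :=
        le_csSup (CS_bdd hκ (by omega) hS) ⟨v, hv, hv1, rfl⟩
      calc Pr P (RE 0 b 0 m) (Hit b m S) ≤ C / en b S v := h4
        _ = C * (1 / en b S v) := by ring
        _ ≤ C * Cap b S := mul_le_mul_of_nonneg_left h5 hC.le
    · exact h3.trans (mul_nonneg hC.le hC0)

/-- lower bound for the capacity of a non-empty set -/
theorem Cap_low (κ : ℤ) (hκ : 1 ≤ κ) : ∃ c : ℝ, 0 < c ∧ ∀ b : ℤ, 1 ≤ b → ∀ S : Finset ℤ,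
    (∀ x ∈ S, Mid κ b x) → S.Nonempty → c * q b ≤ Cap b S := by
  obtain ⟨c, C, hc, hC, h1⟩ := one_cap κ hκ
  obtain ⟨c', hc', h2⟩ := one_low κ hκ
  refine ⟨c' / C, by positivity, fun b hb S hS he => ?_⟩
  obtain ⟨x, hx⟩ := he
  have h3 := (h1 b b hb (by nlinarith) (by nlinarith) S hS).2
  have h4 := h2 b b x hb (by nlinarith) (by nlinarith) (hS x hx)
  have h5 : Pr P (RE 0 b 0 b) (fun F => Up b b F x) ≤ Pr P (RE 0 b 0 b) (Hit b b S) :=
    Pr_mono okP (fun F _ hF => ⟨x, hx, hF⟩)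
  have h6 := h4.trans (h5.trans h3)
  calc c' / C * q b = (c' * q b) / C := by ring
    _ ≤ Cap b S := by
      rw [div_le_iff₀ hC]
      linarith

theorem Cr_empty_left {w h : ℤ} (T : Finset ℤ) : Pr P (RE 0 w 0 h) (Cr w h ∅ T) = 0 := by
  unfold Pr
  rw [Ex_congr (g := fun _ => 0) (fun F _ => ind_not_of (by rintro ⟨s, hs, _⟩; simp at hs)),
    Ex_const]

theorem Cr_empty_right {w h : ℤ} (S : Finset ℤ) : Pr P (RE 0 w 0 h) (Cr w h S ∅) = 0 := by
  unfold Pr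
  rw [Ex_congr (g := fun _ => 0) (fun F _ => ind_not_of (by rintro ⟨s, _, t, ht, _⟩; simp at ht)),
    Ex_const]

/-- **Two sides, lower bound.** -/
theorem cr_low (κ : ℕ) (hκ : 1 ≤ κ) : ∃ c : ℝ, 0 < c ∧ ∀ w h : ℤ, 1 ≤ w → 1 ≤ h → h ≤ κ * w →
    ∀ S T : Finset ℤ, (∀ x ∈ S, Mid κ h x) → (∀ x ∈ T, Mid κ h x) →
    c * (hh (1/2) w h * Cap h S * Cap h T) ≤ Pr P (RE 0 w 0 h) (Cr w h S T) := by
  have hκ' : (1 : ℤ) ≤ κ := by exact_mod_cast hκ
  obtain ⟨c, C, hc, hC, h1⟩ := one_cap κ hκ'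
  obtain ⟨c2, hc2, h2⟩ := rsw_all κ
  refine ⟨c * c2 * c2 * c, by positivity, fun w h hw hh1 hhw S T hS hT => ?_⟩
  obtain ⟨m, hm⟩ : ∃ m, m = min w h := ⟨_, rfl⟩
  have hm1 : 1 ≤ m := by rw [hm]; exact le_min hw hh1
  have hmw : m ≤ w := by rw [hm]; exact min_le_left _ _
  have hmh : m ≤ h := by rw [hm]; exact min_le_right _ _
  have hhm : h ≤ κ * m := by
    rw [hm]
    rcases min_choice w h with h3 | h3
    · rw [h3]; exact hhw
    · rw [h3]; nlinarith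
  have hmk : m ≤ κ * h := by nlinarith
  have a1 := (h1 h m hh1 hhm hmk S hS).1
  have a5 := (h1 h m hh1 hhm hmk T hT).1
  rw [← pr_LH' hmw] at a1
  rw [← pr_RH' hmw] at a5
  have sL : LRE 0 w 0 h ⊆ RE 0 w 0 h := LRE_subset_RE
  have s2 : TBE 0 m 0 h ⊆ RE 0 w 0 h :=
    TBE_subset_RE.trans (RE_subset le_rfl hmw le_rfl le_rfl)
  have s4 : TBE (w - m) w 0 h ⊆ RE 0 w 0 h :=
    TBE_subset_RE.trans (RE_subset (by omega) le_rfl le_rfl le_rfl)
  have b2 : c2 ≤ Pr P (RE 0 w 0 h) (TBc 0 m 0 h) := by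
    have e : Pr P (RE 0 w 0 h) (TBc 0 m 0 h) = hh (1/2) (h - 0) (m - 0) := pr_TBc (1/2) s2
    rw [e, sub_zero, sub_zero]
    exact h2 h m hm1 (by omega) hhm
  have b4 : c2 ≤ Pr P (RE 0 w 0 h) (TBc (w - m) w 0 h) := by
    have e : Pr P (RE 0 w 0 h) (TBc (w - m) w 0 h) = hh (1/2) (h - 0) (w - (w - m)) :=
      pr_TBc (1/2) s4
    rw [e, sub_zero, sub_sub_cancel]
    exact h2 h m hm1 (by omega) hhm
  have b3 : Pr P (RE 0 w 0 h) (LRc 0 w 0 h) = hh (1/2) w h := by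
    have := pr_LRc (1/2) sL
    rw [sub_zero, sub_zero] at this
    exact this
  have hnn := hh_nonneg (q := 1/2) (by norm_num) (by norm_num) w h
  have capS := Cap_nonneg κ hκ' (show 0 ≤ h by omega) hS
  have capT := Cap_nonneg κ hκ' (show 0 ≤ h by omega) hT
  set U := RE 0 w 0 h with hU
  have i1 : IncrE U (LH m h S) := fun F G hFG _ hF => LH_inc m h S F G hFG hF
  have i5 : IncrE U (RH w m h T) := fun F G hFG _ hF => RH_inc w m h T F G hFG hF
  have i2 : IncrE U (TBc 0 m 0 h) := TBc_incr _ _ _ _ _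
  have i4 : IncrE U (TBc (w - m) w 0 h) := TBc_incr _ _ _ _ _
  have i3 : IncrE U (LRc 0 w 0 h) := LRc_incr _ _ _ _ _
  have j1 := hmul i1 i2 hc2.le a1 b2
  have j2 := hmul (A := fun F => LH m h S F ∧ TBc 0 m 0 h F) (B := LRc 0 w 0 h)
    (fun F G h3 h4 hF => ⟨i1 F G h3 h4 hF.1, i2 F G h3 h4 hF.2⟩) i3 hnn j1 b3.ge
  have j3 := hmul (A := fun F => (LH m h S F ∧ TBc 0 m 0 h F) ∧ LRc 0 w 0 h F)
    (B := TBc (w - m) w 0 h)
    (fun F G h3 h4 hF => ⟨⟨i1 F G h3 h4 hF.1.1, i2 F G h3 h4 hF.1.2⟩, i3 F G h3 h4 hF.2⟩) i4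
    hc2.le j2 b4
  have j4 := hmul
    (A := fun F => ((LH m h S F ∧ TBc 0 m 0 h F) ∧ LRc 0 w 0 h F) ∧ TBc (w - m) w 0 h F)
    (B := RH w m h T)
    (fun F G h3 h4 hF => ⟨⟨⟨i1 F G h3 h4 hF.1.1.1, i2 F G h3 h4 hF.1.1.2⟩,
      i3 F G h3 h4 hF.1.2⟩, i4 F G h3 h4 hF.2⟩) i5 (by positivity) j3 a5
  calc c * c2 * c2 * c * (hh (1/2) w h * Cap h S * Cap h T) =
      c * Cap h S * c2 * hh (1/2) w h * c2 * (c * Cap h T) := by ring
    _ ≤ _ := j4
    _ ≤ _ := Pr_mono okP (by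
        rintro F _ ⟨⟨⟨⟨g1, g2⟩, g3⟩, g4⟩, g5⟩
        exact join hm1 hmw hh1 g1 g2 g3 g4 g5)

/-- **Two sides, upper bound.** -/
theorem cr_up (κ : ℕ) (hκ : 1 ≤ κ) : ∃ C : ℝ, 0 < C ∧ ∀ w h : ℤ, 1 ≤ w → 1 ≤ h → h ≤ κ * w →
    ∀ S T : Finset ℤ, (∀ x ∈ S, Mid κ h x) → (∀ x ∈ T, Mid κ h x) →
    Pr P (RE 0 w 0 h) (Cr w h S T) ≤ C * (hh (1/2) w h * Cap h S * Cap h T) := by
  have hκ' : (1 : ℤ) ≤ κ := by exact_mod_cast hκ
  have hκ6 : (1 : ℤ) ≤ 6 * κ := by omega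
  obtain ⟨c, C, hc, hC, h1⟩ := one_cap (6 * κ) hκ6
  obtain ⟨c3, hc3, h3⟩ := rsw_all 3
  obtain ⟨c6, hc6, h6⟩ := rsw_all (6 * κ)
  obtain ⟨c0, hc0, h0⟩ := Cap_low κ hκ'
  have hκ0 : (0 : ℝ) < κ := by exact_mod_cast (by omega : 0 < κ)
  obtain ⟨A, hA⟩ : ∃ A : ℝ, A = C * C / (c3 * c6) := ⟨_, rfl⟩
  obtain ⟨B, hB⟩ : ∃ B : ℝ, B = (2 * κ + 1) * (2 * κ + 1) / (c3 * c0 * c0) := ⟨_, rfl⟩
  have hA0 : 0 < A := by rw [hA]; positivity
  have hB0 : 0 < B := by rw [hB]; positivity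
  refine ⟨A + B, by positivity, fun w h hw hh1 hhw S T hS hT => ?_⟩
  have capS := Cap_nonneg κ hκ' (show 0 ≤ h by omega) hS
  have capT := Cap_nonneg κ hκ' (show 0 ≤ h by omega) hT
  have hnn := hh_nonneg (q := 1/2) (by norm_num) (by norm_num) w h
  have hX : 0 ≤ hh (1/2) w h * Cap h S * Cap h T := by positivity
  rcases S.eq_empty_or_nonempty with he | he
  · rw [he, Cr_empty_left]
    rw [he] at hX
    positivity
  rcases T.eq_empty_or_nonempty with he' | he'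
  · rw [he', Cr_empty_right]
    rw [he'] at hX
    positivity
  rcases lt_or_ge w 3 with hw3 | hw3
  · -- thin rectangles
    have hhk : h ≤ 2 * κ := by nlinarith
    have hq : 1 ≤ (2 * κ + 1) * q h := by
      have := q_cmp (a := h) (b := 0) (k := 2 * κ + 1) (by omega) (by omega) le_rfl (by omega)
      rw [q_zero] at this
      push_cast at this
      exact this
    have f1 := h0 h hh1 S hS he
    have f2 := h0 h hh1 T hT he'
    have f3 := h3 w h hh1 (by omega) (by push_cast; omega)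
    have hqh := q_pos (n := h) (by omega)
    have g1 : (c0 * q h) * (c0 * q h) ≤ Cap h S * Cap h T :=
      mul_le_mul f1 f2 (by positivity) capS
    have g2 : c3 * ((c0 * q h) * (c0 * q h)) ≤ hh (1/2) w h * (Cap h S * Cap h T) :=
      mul_le_mul f3 g1 (by positivity) hnn
    have g3 : 1 ≤ B * (hh (1/2) w h * Cap h S * Cap h T) := by
      calc (1 : ℝ) = 1 * 1 := by norm_num
        _ ≤ ((2 * κ + 1) * q h) * ((2 * κ + 1) * q h) :=
          mul_le_mul hq hq zero_le_one (by positivity)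
        _ = B * (c3 * ((c0 * q h) * (c0 * q h))) := by
          rw [hB]; field_simp
        _ ≤ B * (hh (1/2) w h * (Cap h S * Cap h T)) := mul_le_mul_of_nonneg_left g2 hB0.le
        _ = _ := by ring
    calc Pr P (RE 0 w 0 h) (Cr w h S T) ≤ 1 := Pr_le_one okP _ _
      _ ≤ B * (hh (1/2) w h * Cap h S * Cap h T) := g3
      _ ≤ (A + B) * (hh (1/2) w h * Cap h S * Cap h T) :=
        mul_le_mul_of_nonneg_right (by linarith) hX
  · obtain ⟨m, hm⟩ : ∃ m, m = min (w / 3) h := ⟨_, rfl⟩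
    have hm1 : 1 ≤ m := by rw [hm]; exact le_min (by omega) hh1
    have hmw : 3 * m ≤ w := by
      have : m ≤ w / 3 := by rw [hm]; exact min_le_left _ _
      omega
    have hmh : m ≤ h := by rw [hm]; exact min_le_right _ _
    have hhm : h ≤ 6 * κ * m := by
      rw [hm]
      rcases min_choice (w / 3) h with h4 | h4
      · rw [h4]
        have h5 : w ≤ 6 * (w / 3) := by omega
        calc h ≤ κ * w := hhw
          _ ≤ κ * (6 * (w / 3)) := mul_le_mul_of_nonneg_left h5 (by omega)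
          _ = 6 * κ * (w / 3) := by ring
      · rw [h4]
        nlinarith
    have hmk : m ≤ 6 * κ * h := by nlinarith
    have hS6 : ∀ x ∈ S, Mid (6 * κ) h x := by
      intro x hx
      obtain ⟨u1, u2⟩ := hS x hx
      obtain ⟨u3, u4⟩ := (hS x hx).pos hκ' (by omega)
      exact ⟨by nlinarith, by nlinarith⟩
    have hT6 : ∀ x ∈ T, Mid (6 * κ) h x := by
      intro x hx
      obtain ⟨u1, u2⟩ := hT x hx
      obtain ⟨u3, u4⟩ := (hT x hx).pos hκ' (by omega)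
      exact ⟨by nlinarith, by nlinarith⟩
    have a1 := (h1 h m hh1 hhm hmk S hS6).2
    have a5 := (h1 h m hh1 hhm hmk T hT6).2
    rw [← pr_LH] at a1
    rw [← pr_LH, ← pr_RH w m h T] at a5
    have hp1 : Pr P (LRE m (w - m) 0 h) (LRc m (w - m) 0 h) = hh (1/2) (w - 2 * m) h := by
      have := pr_LRc (1/2) (Finset.Subset.refl (LRE m (w - m) 0 h))
      rw [show w - m - m = w - 2 * m by ring, sub_zero] at this
      exact this
    have d1 : Disjoint (RE 0 m 0 h) (LRE m (w - m) 0 h ∪ RE (w - m) w 0 h) := by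
      rw [Finset.disjoint_left]
      rintro ⟨x, y, bo⟩ k1 k2
      rw [Finset.mem_union] at k2
      cases bo
      · rw [mem_RE_false] at k1 k2
        rw [mem_LRE_false] at k2
        omega
      · rw [mem_RE_true] at k1 k2
        rw [mem_LRE_true] at k2
        omega
    have d2 : Disjoint (LRE m (w - m) 0 h) (RE (w - m) w 0 h) := by
      rw [Finset.disjoint_left]
      rintro ⟨x, y, bo⟩ k1 k2
      cases bo
      · rw [mem_RE_false] at k2
        rw [mem_LRE_false] at k1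
        omega
      · rw [mem_RE_true] at k2
        rw [mem_LRE_true] at k1
        omega
    have inc2 : IncA (fun F => LRc m (w - m) 0 h F ∧ RH w m h T F) :=
      fun F G hFG hF => ⟨hF.1.mono hFG, RH_inc w m h T F G hFG hF.2⟩
    have loc2 : LocE (LRE m (w - m) 0 h ∪ RE (w - m) w 0 h)
        (fun F => LRc m (w - m) 0 h F ∧ RH w m h T F) := by
      intro F
      show (LRc m (w - m) 0 h F ∧ RH w m h T F) ↔
        (LRc m (w - m) 0 h (F ∩ (LRE m (w - m) 0 h ∪ RE (w - m) w 0 h)) ∧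
          RH w m h T (F ∩ (LRE m (w - m) 0 h ∪ RE (w - m) w 0 h)))
      rw [LRc_loc m (w - m) 0 h F, RH_loc w m h T F,
        LRc_loc m (w - m) 0 h (F ∩ (LRE m (w - m) 0 h ∪ RE (w - m) w 0 h)),
        RH_loc w m h T (F ∩ (LRE m (w - m) 0 h ∪ RE (w - m) w 0 h))]
      have e1 : F ∩ (LRE m (w - m) 0 h ∪ RE (w - m) w 0 h) ∩ LRE m (w - m) 0 h =
          F ∩ LRE m (w - m) 0 h := by
        ext e; simp only [Finset.mem_inter, Finset.mem_union]; tauto
      have e2 : F ∩ (LRE m (w - m) 0 h ∪ RE (w - m) w 0 h) ∩ RE (w - m) w 0 h =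
          F ∩ RE (w - m) w 0 h := by
        ext e; simp only [Finset.mem_inter, Finset.mem_union]; tauto
      rw [e1, e2]
    have k1 : Pr P (RE 0 w 0 h) (Cr w h S T) ≤
        Pr P (RE 0 w 0 h) (fun F => LH m h S F ∧ (LRc m (w - m) 0 h F ∧ RH w m h T F)) :=
      Pr_mono okP (fun F _ hF => cut hm1 hmw
        (fun x hx => (hS x hx).pos hκ' (by omega)) (fun x hx => (hT x hx).pos hκ' (by omega)) hF)
    have k2 := indep2 (RE 0 w 0 h) _ _ d1 (LH_inc m h S) inc2 (LH_loc m h S) loc2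
    have k3 := indep2 (LRE m (w - m) 0 h ∪ RE (w - m) w 0 h) _ _ d2 (LRc_inc m (w - m) 0 h)
      (RH_inc w m h T) (LRc_loc m (w - m) 0 h) (RH_loc w m h T)
    rw [hp1] at k3
    have g1 := hh_glue (q := 1/2) (by norm_num) (by norm_num) (w1 := w - 2 * m) (w2 := 3 * m)
      (v := m) (h := h) (by omega) (by omega) (by omega) (by omega)
    rw [show w - 2 * m + 3 * m - m = w by ring] at g1
    have f3 := h3 (3 * m) h hh1 (by omega) (by push_cast; omega)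
    have f6 := h6 h m hm1 (by omega) (by push_cast; exact hhm)
    have hn2 := hh_nonneg (q := 1/2) (by norm_num) (by norm_num) (w - 2 * m) h
    have g2 : hh (1/2) (w - 2 * m) h * (c3 * c6) ≤ hh (1/2) w h := by
      refine le_trans ?_ g1
      rw [mul_assoc]
      apply mul_le_mul_of_nonneg_left _ hn2
      exact mul_le_mul f3 f6 hc6.le (hh_nonneg (by norm_num) (by norm_num) _ _)
    have hp0 : 0 ≤ Pr P (RE 0 m 0 h) (LH m h S) := Pr_nonneg okP _ _
    calc Pr P (RE 0 w 0 h) (Cr w h S T)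
        ≤ Pr P (RE 0 m 0 h) (LH m h S) * (hh (1/2) (w - 2 * m) h *
          Pr P (RE (w - m) w 0 h) (RH w m h T)) :=
          k1.trans (k2.trans (mul_le_mul_of_nonneg_left k3 hp0))
      _ ≤ (C * Cap h S) * (hh (1/2) (w - 2 * m) h * (C * Cap h T)) := by
          apply mul_le_mul a1 (mul_le_mul_of_nonneg_left a5 hn2) _ (by positivity)
          exact mul_nonneg hn2 (Pr_nonneg okP _ _)
      _ = A * ((hh (1/2) (w - 2 * m) h * (c3 * c6)) * Cap h S * Cap h T) := by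
          rw [hA]; field_simp
      _ ≤ A * (hh (1/2) w h * Cap h S * Cap h T) := by
          apply mul_le_mul_of_nonneg_left _ hA0.le
          apply mul_le_mul_of_nonneg_right _ capT
          exact mul_le_mul_of_nonneg_right g2 capS
      _ ≤ (A + B) * (hh (1/2) w h * Cap h S * Cap h T) :=
          mul_le_mul_of_nonneg_right (by linarith) hX

end Pool.Agent.TH966.CC
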