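import Pool.Agent.TH966.CC.Cap

/-!
Connections between subsets of two opposite sides of a rectangle.
-/

set_option autoImplicit false
set_option maxHeartbeats 1000000

namespace Pool.Agent.TH966.CC

open H974 H973 H934E Finset
open Pool.Agent.TH966.GB Pool.Agent.H160R2.CV
open Pool.Agent.H160R2.CV.Quad

/-- Some `(0, s)`, `s ∈ S`, is joined to the line `x = m` inside `[0, m] × [0, h]`. -/
def LH (m h : ℤ) (S : Finset ℤ) (F : Finset Edg) : Prop :=
  ∃ s ∈ S, ∃ t : ℤ, (0 ≤ t ∧ t ≤ h) ∧ Reach (↑F ∩ ↑(RE 0 m 0 h)) (0, s) (m, t)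

/-- Some `(w, s)`, `s ∈ T`, is joined to the line `x = w - m` inside `[w - m, w] × [0, h]`. -/
def RH (w m h : ℤ) (T : Finset ℤ) (F : Finset Edg) : Prop :=
  ∃ s ∈ T, ∃ t : ℤ, (0 ≤ t ∧ t ≤ h) ∧ Reach (↑F ∩ ↑(RE (w - m) w 0 h)) (w, s) (w - m, t)

/-- Some `(0, s)`, `s ∈ S`, is joined to some `(w, t)`, `t ∈ T`, inside `[0, w] × [0, h]`. -/
def Cr (w h : ℤ) (S T : Finset ℤ) (F : Finset Edg) : Prop :=
  ∃ s ∈ S, ∃ t ∈ T, Reach (↑F ∩ ↑(RE 0 w 0 h)) (0, s) (w, t)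

theorem LH_inc (m h : ℤ) (S : Finset ℤ) : IncA (LH m h S) := by
  rintro F G h1 ⟨s, hs, t, ht, hr⟩
  exact ⟨s, hs, t, ht, hr.mono (Set.inter_subset_inter_left _ (by exact_mod_cast h1))⟩

theorem RH_inc (w m h : ℤ) (S : Finset ℤ) : IncA (RH w m h S) := by
  rintro F G h1 ⟨s, hs, t, ht, hr⟩
  exact ⟨s, hs, t, ht, hr.mono (Set.inter_subset_inter_left _ (by exact_mod_cast h1))⟩

theorem LRc_inc (a b c d : ℤ) : IncA (LRc a b c d) := fun _ _ h hF => hF.mono h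

theorem TBc_inc (a b c d : ℤ) : IncA (TBc a b c d) := fun _ _ h hF => hF.mono h

theorem LH_loc (m h : ℤ) (S : Finset ℤ) : LocE (RE 0 m 0 h) (LH m h S) := by
  intro F
  unfold LH
  rw [coe_inter_eq (Finset.Subset.refl _)]

theorem RH_loc (w m h : ℤ) (S : Finset ℤ) : LocE (RE (w - m) w 0 h) (RH w m h S) := by
  intro F
  unfold RH
  rw [coe_inter_eq (Finset.Subset.refl _)]

theorem LRc_loc (a b c d : ℤ) : LocE (LRE a b c d) (LRc a b c d) := fun _ =>
  LRc_local (Finset.Subset.refl _)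

theorem pr_LH (m h : ℤ) (S : Finset ℤ) :
    Pr P (RE 0 m 0 h) (LH m h S) = Pr P (RE 0 h 0 m) (Hit h m S) := by
  have h1 : tps.mp (RE 0 h 0 m) = RE 0 m 0 h := tps_RE _ _ _ _
  have h2 : Pr P (RE 0 m 0 h) (LH m h S) = Pr P (tps.mp (RE 0 h 0 m)) (LH m h S) := by rw [h1]
  rw [h2]
  change Pr (fun _ => (1/2 : ℝ)) _ _ = _
  rw [LSym.pr]
  apply Pr_congr
  intro F _
  have himg : tps.φ '' ((↑F : Set Edg) ∩ ↑(RE 0 h 0 m)) = ↑(tps.mp F) ∩ ↑(RE 0 m 0 h) := by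
    rw [LSym.image_inter, h1]
  constructor
  · rintro ⟨s, hs, t, ht, hr⟩
    refine ⟨s, hs, t, ht, ?_⟩
    rw [← tps.reach_iff, himg]
    exact hr
  · rintro ⟨s, hs, t, ht, hr⟩
    refine ⟨s, hs, t, ht, ?_⟩
    rw [← tps.reach_iff, himg] at hr
    exact hr

theorem pr_RH (w m h : ℤ) (S : Finset ℤ) :
    Pr P (RE (w - m) w 0 h) (RH w m h S) = Pr P (RE 0 m 0 h) (LH m h S) := by
  have h1 : (rfx w).mp (RE 0 m 0 h) = RE (w - m) w 0 h := by
    rw [rfx_RE, sub_zero]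
  have h2 : Pr P (RE (w - m) w 0 h) (RH w m h S) =
      Pr P ((rfx w).mp (RE 0 m 0 h)) (RH w m h S) := by rw [h1]
  rw [h2]
  change Pr (fun _ => (1/2 : ℝ)) _ _ = _
  rw [LSym.pr]
  apply Pr_congr
  intro F _
  have himg : (rfx w).φ '' ((↑F : Set Edg) ∩ ↑(RE 0 m 0 h)) =
      ↑((rfx w).mp F) ∩ ↑(RE (w - m) w 0 h) := by
    rw [LSym.image_inter, h1]
  constructor
  · rintro ⟨s, hs, t, ht, hr⟩
    refine ⟨s, hs, t, ht, ?_⟩
    rw [← (rfx w).reach_iff, himg, rfx_ψ, rfx_ψ, sub_zero]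
    exact hr
  · rintro ⟨s, hs, t, ht, hr⟩
    refine ⟨s, hs, t, ht, ?_⟩
    rw [← (rfx w).reach_iff, himg, rfx_ψ, rfx_ψ, sub_zero] at hr
    exact hr

theorem pr_LH' {w m h : ℤ} (hm : m ≤ w) (S : Finset ℤ) :
    Pr P (RE 0 w 0 h) (LH m h S) = Pr P (RE 0 h 0 m) (Hit h m S) := by
  rw [← pr_LH]
  exact Pr_local (RE_subset le_rfl hm le_rfl le_rfl) (fun F _ => LH_loc m h S F)

theorem pr_RH' {w m h : ℤ} (hm : m ≤ w) (S : Finset ℤ) :
    Pr P (RE 0 w 0 h) (RH w m h S) = Pr P (RE 0 h 0 m) (Hit h m S) := by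
  rw [← pr_LH, ← pr_RH w m h S]
  exact Pr_local (RE_subset (by omega) le_rfl le_rfl le_rfl) (fun F _ => RH_loc w m h S F)

theorem TBE_sub (a b c d : ℤ) : TBE a b c d ⊆ RE a b c d := TBE_subset_RE

/-- Deterministic gluing. -/
theorem join {w m h : ℤ} {S T : Finset ℤ} {F : Finset Edg} (hm : 1 ≤ m) (hmw : m ≤ w) (hh : 1 ≤ h)
    (h1 : LH m h S F) (h2 : TBc 0 m 0 h F) (h3 : LRc 0 w 0 h F) (h4 : TBc (w - m) w 0 h F)
    (h5 : RH w m h T F) : Cr w h S T F := by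
  obtain ⟨s, hs, t, ht, hr⟩ := h1
  obtain ⟨s', hs', t', ht', hr'⟩ := h5
  obtain ⟨x, x', hx, hx', hv⟩ := h2
  obtain ⟨z, z', hz, hz', hv'⟩ := h4
  obtain ⟨y, y', hy, hy', hl⟩ := h3
  have k0 : (↑F : Set Edg) ∩ ↑(RE 0 m 0 h) ⊆ ↑F ∩ ↑(RE 0 w 0 h) :=
    Set.inter_subset_inter_right _ (by exact_mod_cast RE_subset le_rfl hmw le_rfl le_rfl)
  have k0' : (↑F : Set Edg) ∩ ↑(RE (w - m) w 0 h) ⊆ ↑F ∩ ↑(RE 0 w 0 h) :=
    Set.inter_subset_inter_right _ (by exact_mod_cast RE_subset (by omega) le_rfl le_rfl le_rfl)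
  have hv1 : Reach (↑F ∩ ↑(RE 0 m 0 h)) (x, 0) (x', h) :=
    hv.mono (Set.inter_subset_inter_right _ (by exact_mod_cast TBE_sub _ _ _ _))
  have hv2 : Reach (↑F ∩ ↑(RE (w - m) w 0 h)) (z, 0) (z', h) :=
    hv'.mono (Set.inter_subset_inter_right _ (by exact_mod_cast TBE_sub _ _ _ _))
  have hl1 : Reach (↑F ∩ ↑(RE 0 w 0 h)) (0, y) (w, y') :=
    hl.mono (Set.inter_subset_inter_right _ (by exact_mod_cast LRE_subset_RE))
  have a1 := cross_meet (F := ↑F) (A := 0) (B := m) (C := 0) (D := h) (a := 0) (b := m) (c := 0)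
    (d := h) le_rfl (by omega) le_rfl le_rfl (by omega) le_rfl hr le_rfl le_rfl hv1 le_rfl le_rfl
  have a2 := cross_meet (F := ↑F) (A := 0) (B := w) (C := 0) (D := h) (a := 0) (b := m) (c := 0)
    (d := h) le_rfl (by omega) hmw le_rfl (by omega) le_rfl hl1 le_rfl (by simp only; omega)
    hv1 le_rfl le_rfl
  have a3 := cross_meet (F := ↑F) (A := 0) (B := w) (C := 0) (D := h) (a := w - m) (b := w)
    (c := 0) (d := h) (by omega) (by omega) le_rfl le_rfl (by omega) le_rfl hl1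
    (by simp only; omega) le_rfl hv2 le_rfl le_rfl
  have a4 := cross_meet (F := ↑F) (A := w - m) (B := w) (C := 0) (D := h) (a := w - m) (b := w)
    (c := 0) (d := h) le_rfl (by omega) le_rfl le_rfl (by omega) le_rfl hr'.symm
    le_rfl le_rfl hv2 le_rfl le_rfl
  exact ⟨s, hs, s', hs', (a1.mono k0).trans (a2.symm.trans (a3.trans
    ((a4.symm.mono k0').trans (hr'.symm.mono k0'))))⟩

theorem left_part {w m h : ℤ} {G : Set Edg} (hG : G ⊆ ↑(RE 0 w 0 h)) {u v : Vtx}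
    (hu : u.1 ≤ m) (hu2 : 0 ≤ u.2 ∧ u.2 ≤ h) (hv : m ≤ v.1) (hr : Reach G u v) :
    ∃ t : ℤ, (0 ≤ t ∧ t ≤ h) ∧ Reach (G ∩ ↑(RE 0 m 0 h)) u (m, t) := by
  have key : ∀ z, Reach G u z → (∃ t : ℤ, (0 ≤ t ∧ t ≤ h) ∧ Reach (G ∩ ↑(RE 0 m 0 h)) u (m, t)) ∨
      (z.1 < m ∧ Reach (G ∩ ↑(RE 0 m 0 h)) u z) := by
    intro z hz
    induction hz with
    | refl =>
      rcases lt_or_eq_of_le hu with h1 | h1
      · exact Or.inr ⟨h1, Reach.refl _ _⟩
      · left
        refine ⟨u.2, hu2, ?_⟩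
        have : u = (m, u.2) := by ext <;> simp [h1]
        rw [← this]
        exact Reach.refl _ _
    | @tail z z' _ hs ih =>
      rcases ih with ih | ⟨ih1, ih2⟩
      · exact Or.inl ih
      · obtain ⟨e, he, hc⟩ := hs
        have heR := hG he
        rw [Finset.mem_coe] at heR
        have hin : e ∈ RE 0 m 0 h ∧ z'.1 ≤ m ∧ 0 ≤ z'.2 ∧ z'.2 ≤ h := by
          obtain ⟨x, y, bo⟩ := e
          obtain ⟨z1, z2⟩ := z
          obtain ⟨z1', z2'⟩ := z'
          cases bo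
          · rw [mem_RE_false] at heR
            rw [mem_RE_false]
            simp only [src_mk, tgt_false, Prod.mk.injEq] at hc
            simp only at ih1 ⊢
            omega
          · rw [mem_RE_true] at heR
            rw [mem_RE_true]
            simp only [src_mk, tgt_true, Prod.mk.injEq] at hc
            simp only at ih1 ⊢
            omega
        have hstep : Reach (G ∩ ↑(RE 0 m 0 h)) u z' :=
          ih2.trans (Adj.reach ⟨e, ⟨he, Finset.mem_coe.mpr hin.1⟩, hc⟩)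
        rcases lt_or_eq_of_le hin.2.1 with h1 | h1
        · exact Or.inr ⟨h1, hstep⟩
        · left
          refine ⟨z'.2, hin.2.2, ?_⟩
          have : z' = (m, z'.2) := by ext <;> simp [h1]
          rw [← this]
          exact hstep
  rcases key v hr with h1 | ⟨h1, _⟩
  · exact h1
  · omega

theorem right_part {w m h : ℤ} {G : Set Edg} (hG : G ⊆ ↑(RE 0 w 0 h)) {u v : Vtx}
    (hu : m ≤ u.1) (hu2 : 0 ≤ u.2 ∧ u.2 ≤ h) (hv : v.1 ≤ m) (hr : Reach G u v) :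
    ∃ t : ℤ, (0 ≤ t ∧ t ≤ h) ∧ Reach (G ∩ ↑(RE m w 0 h)) u (m, t) := by
  have key : ∀ z, Reach G u z → (∃ t : ℤ, (0 ≤ t ∧ t ≤ h) ∧ Reach (G ∩ ↑(RE m w 0 h)) u (m, t)) ∨
      (m < z.1 ∧ Reach (G ∩ ↑(RE m w 0 h)) u z) := by
    intro z hz
    induction hz with
    | refl =>
      rcases lt_or_eq_of_le hu with h1 | h1
      · exact Or.inr ⟨h1, Reach.refl _ _⟩
      · left
        refine ⟨u.2, hu2, ?_⟩
        have : u = (m, u.2) := by ext <;> simp [h1]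
        rw [← this]
        exact Reach.refl _ _
    | @tail z z' _ hs ih =>
      rcases ih with ih | ⟨ih1, ih2⟩
      · exact Or.inl ih
      · obtain ⟨e, he, hc⟩ := hs
        have heR := hG he
        rw [Finset.mem_coe] at heR
        have hin : e ∈ RE m w 0 h ∧ m ≤ z'.1 ∧ 0 ≤ z'.2 ∧ z'.2 ≤ h := by
          obtain ⟨x, y, bo⟩ := e
          obtain ⟨z1, z2⟩ := z
          obtain ⟨z1', z2'⟩ := z'
          cases bo
          · rw [mem_RE_false] at heR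
            rw [mem_RE_false]
            simp only [src_mk, tgt_false, Prod.mk.injEq] at hc
            simp only at ih1 ⊢
            omega
          · rw [mem_RE_true] at heR
            rw [mem_RE_true]
            simp only [src_mk, tgt_true, Prod.mk.injEq] at hc
            simp only at ih1 ⊢
            omega
        have hstep : Reach (G ∩ ↑(RE m w 0 h)) u z' :=
          ih2.trans (Adj.reach ⟨e, ⟨he, Finset.mem_coe.mpr hin.1⟩, hc⟩)
        rcases lt_or_eq_of_le hin.2.1 with h1 | h1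
        · exact Or.inr ⟨h1, hstep⟩
        · left
          refine ⟨z'.2, hin.2.2, ?_⟩
          have : z' = (m, z'.2) := by ext <;> simp [h1]
          rw [← this]
          exact hstep
  rcases key v hr with h1 | ⟨h1, _⟩
  · exact h1
  · omega

/-- The crossing is cut in three pieces. -/
theorem cut {w m h : ℤ} {S T : Finset ℤ} {F : Finset Edg} (hm : 1 ≤ m) (hmw : 3 * m ≤ w)
    (hS : ∀ x ∈ S, 0 ≤ x ∧ x ≤ h) (hT : ∀ x ∈ T, 0 ≤ x ∧ x ≤ h)
    (h1 : Cr w h S T F) : LH m h S F ∧ LRc m (w - m) 0 h F ∧ RH w m h T F := by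
  obtain ⟨s, hs, t, ht, hr⟩ := h1
  have hsr := hS s hs
  have htr := hT t ht
  have hH : ∀ x y, ((x, y, true) : Edg) ∈ (↑F ∩ ↑(RE 0 w 0 h) : Set Edg) → 0 ≤ y ∧ y ≤ h := by
    rintro x y ⟨-, h⟩
    simp only [mem_coe, mem_RE_true] at h; omega
  have hV : ∀ x y, ((x, y, false) : Edg) ∈ (↑F ∩ ↑(RE 0 w 0 h) : Set Edg) → 0 ≤ y ∧ y < h := by
    rintro x y ⟨-, h⟩
    simp only [mem_coe, mem_RE_false] at h; omega
  refine ⟨?_, ?_, ?_⟩
  · obtain ⟨t', ht', h2⟩ := left_part (m := m) (u := (0, s)) (v := (w, t)) Set.inter_subset_right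
      (by simp only; omega) hsr (by simp only; omega) hr
    exact ⟨s, hs, t', ht', h2.mono (by rintro e ⟨⟨h7, -⟩, h8⟩; exact ⟨h7, h8⟩)⟩
  · obtain ⟨y1, y2, k1, k2, k3, k4⟩ := sub_LR (a := m) (b := w - m) (c := 0) (d := h) (by omega)
      (fun x y h _ _ => hH x y h) (fun x y h _ _ => hV x y h) hr (by simp only; omega)
      (by simp only; omega)
    exact ⟨y1, y2, k1, k2, k3.mono (by rintro e ⟨⟨h7, -⟩, h8⟩; exact ⟨h7, h8⟩)⟩
  · obtain ⟨t', ht', h2⟩ := right_part (m := w - m) (u := (w, t)) (v := (0, s))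
      Set.inter_subset_right (by simp only; omega) htr (by simp only; omega) hr.symm
    exact ⟨t, ht, t', ht', h2.mono (by rintro e ⟨⟨h7, -⟩, h8⟩; exact ⟨h7, h8⟩)⟩

/-- Russo-Seymour-Welsh bounds for all sizes. -/
theorem rsw_all (κ : ℕ) : ∃ c : ℝ, 0 < c ∧ ∀ w h : ℤ, 1 ≤ h → 0 < w → w ≤ κ * h →
    c ≤ hh (1 / 2) w h := by
  obtain ⟨c, hc, h⟩ := Pool.Agent.H389R2.LV.rsw_long κ
  refine ⟨min c ((1/2 : ℝ) ^ ((κ + 1) * 4)), by positivity, fun w h' hh1 hw hwκ => ?_⟩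
  rcases lt_or_ge 1 h' with h2 | h2
  · exact (min_le_left _ _).trans (h w h' (by omega) hw hwκ)
  · have he : h' = 1 := by omega
    subst he
    refine (min_le_right _ _).trans ?_
    have e1 : hh (1/2) w 1 = Pr P (RE 0 w 0 1) (LRc 0 w 0 1) := by
      have := pr_LRc (1/2) (a := 0) (b := w) (c := 0) (d := 1) (S := RE 0 w 0 1) LRE_subset_RE
      rw [sub_zero, sub_zero] at this
      exact this.symm
    rw [e1]
    apply half_lower_RE (by omega) (by norm_num)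
    · push_cast
      omega
    · apply LRc_of_reach (by omega) (u := (0, 0)) (v := (w, 0)) _ rfl rfl
      rw [Set.inter_self]
      apply hpath (by omega)
      intro x h3 h4
      rw [Finset.mem_coe, mem_RE_true]
      omega

end Pool.Agent.TH966.CC
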